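import Pool.Agent.Lib_MP_752436_hb.Main
import Pool.Agent.Lib_MP_752436_ts.Main
import Pool.Agent.Lib_MP_752436_cu.UmbAE

/-!
Births and half of the trisecants: almost all directions which are not tangent to the disc.
-/

open MeasureTheory Metric Set Filter
open scoped ContDiff Topology

namespace Pool.Agent.Lib_MP_752436_hb

open Pool.Agent.Lib_MP_752436_gt Pool.Agent.Lib_MP_752436_tp Pool.Agent.Lib_MP_752436_rb
  Pool.Agent.Lib_MP_752436_ts Pool.Agent.Lib_MP_752436_cu

variable {F : Plane → EuclideanSpace ℝ (Fin 4)}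

/-- A direction which is not tangent to the disc gives an immersion. -/
theorem immersion_of_not_tangent (hF : IsSliceDisc F) {v : EuclideanSpace ℝ (Fin 4)}
    (hv3 : v 3 ≠ 0) {x : Plane} (hx : x ∈ closedBall (0 : Plane) 1)
    (hv : ∀ u, fderiv ℝ F x u ≠ v) {u : Plane}
    (hu : fderiv ℝ (proj F (dirVec v)) x u = 0) : u = 0 := by
  have hFd : DifferentiableAt ℝ F x := hF.smooth.differentiable (by simp) x
  have hc : ∀ i, DifferentiableAt ℝ (fun y => F y i) x := fun i =>
    (differentiableAt_euclidean.1 hFd) i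
  have hci : ∀ i w, fderiv ℝ (fun y => F y i) x w = (fderiv ℝ F x w) i := by
    intro i w
    have h1 : HasFDerivAt (fun y => F y i) ((EuclideanSpace.proj (𝕜 := ℝ) i).comp (fderiv ℝ F x)) x :=
      (EuclideanSpace.proj (𝕜 := ℝ) i).hasFDerivAt.comp x hFd.hasFDerivAt
    rw [h1.fderiv]
    rfl
  have hpd : DifferentiableAt ℝ (proj F (dirVec v)) x := by
    unfold proj
    exact ((contDiff_shadow hF).differentiable (by simp) x).add ((hc 3).smul_const _)
  have hpi : ∀ i, fderiv ℝ (fun y => proj F (dirVec v) y i) x u = 0 := by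
    intro i
    have h1 : HasFDerivAt (fun y => proj F (dirVec v) y i)
        ((EuclideanSpace.proj (𝕜 := ℝ) i).comp (fderiv ℝ (proj F (dirVec v)) x)) x :=
      (EuclideanSpace.proj (𝕜 := ℝ) i).hasFDerivAt.comp x hpd.hasFDerivAt
    rw [h1.fderiv]
    show (fderiv ℝ (proj F (dirVec v)) x u) i = 0
    rw [hu]
    rfl
  -- the coordinates
  have key : ∀ (i : Fin 3) (j : Fin 4), (∀ y, proj F (dirVec v) y i = F y j + F y 3 * dirVec v i) →
      (fderiv ℝ F x u) j = -(fderiv ℝ F x u) 3 * dirVec v i := by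
    intro i j hij
    have h1 := hpi i
    have h2 : (fun y => proj F (dirVec v) y i) = fun y => F y j + F y 3 * dirVec v i := funext hij
    rw [h2, fderiv_fun_add (hc j) ((hc 3).mul_const _), fderiv_mul_const (hc 3)] at h1
    simp only [add_apply, smul_apply, hci,
      smul_eq_mul] at h1
    linarith
  have k0 := key 0 0 (fun y => rfl)
  have k1 := key 1 1 (fun y => rfl)
  have k2 := key 2 2 (fun y => rfl)
  set t := (fderiv ℝ F x u) 3 with ht
  have hd0 : dirVec v 0 = -(v 0) / v 3 := rfl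
  have hd1 : dirVec v 1 = -(v 1) / v 3 := rfl
  have hd2 : dirVec v 2 = -(v 2) / v 3 := rfl
  have hvec : fderiv ℝ F x u = (t / v 3) • v := by
    ext i
    fin_cases i
    · show (fderiv ℝ F x u) 0 = t / v 3 * v 0
      rw [k0, hd0]
      field_simp
    · show (fderiv ℝ F x u) 1 = t / v 3 * v 1
      rw [k1, hd1]
      field_simp
    · show (fderiv ℝ F x u) 2 = t / v 3 * v 2
      rw [k2, hd2]
      field_simp
    · show (fderiv ℝ F x u) 3 = t / v 3 * v 3
      rw [div_mul_cancel₀ _ hv3]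
  by_cases ht0 : t = 0
  · rw [ht0, zero_div, zero_smul] at hvec
    exact (injective_iff_map_eq_zero _).1 (hF.immersion x hx) u hvec
  · exfalso
    refine hv ((v 3 / t) • u) ?_
    rw [map_smul, hvec, smul_smul, div_mul_div_cancel₀ ht0, div_self hv3, one_smul]

/-- Births are bounded by half of the trisecants in almost every direction which is not tangent to
the disc. -/
theorem ae_two_births_le_trisecants (hF : IsSliceDisc F) :
    ∀ᵐ v : EuclideanSpace ℝ (Fin 4), (∀ x ∈ closedBall (0 : Plane) 1, ∀ u, fderiv ℝ F x u ≠ v) →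
      ∃ G, MorseDisc G ∧ boundaryKnot G = boundaryKnot F ∧
        2 * (births G).encard ≤ (trisecants F 0 v).encard := by
  filter_upwards [ae_direction (ae_umb hF)] with v hv htan
  obtain ⟨hv3, humb⟩ := hv
  set a := dirVec v with ha
  set F' : Plane → EuclideanSpace ℝ (Fin 4) := fun x => shearMap (horizVec a) (F x) with hF'
  have hsl : IsSliceDisc F' := isSliceDisc_shear hF (horizVec_three a)
  have hsh : shadow F' = proj F a := shadow_shear F a
  have h3 : ∀ x, F' x 3 = F x 3 := fun x => shear_three a (F x)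
  have hne : ∀ {x y}, (x, y) ∈ DoubleSet F' → x ≠ y := by
    rintro x y hxy rfl
    exact lt_irrefl _ hxy.2.2.2
  have hg : InGeneralPosition F' := by
    refine ⟨?_, ?_, ?_, ?_, ?_⟩
    · intro x hx u hu
      unfold dproj at hu
      rw [hsh] at hu
      exact immersion_of_not_tangent hF hv3 hx (htan x hx) hu
    · intro x y hxy w
      exact humb.gen.double x hxy.1 y hxy.2.1 (hne hxy) hxy.2.2.1 w
    · intro x y hxy hy u w hyw huw
      exact humb.boundary x y hxy (mem_sphere_zero_iff_norm.2 hy) u w hyw huw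
    · intro x y z hxyz u v' w h1 h2
      exact humb.triple x y z hxyz u v' w h1 h2
    · intro x y z w h1 h2
      have hxz : (x, z) ∈ DoubleSet F' :=
        ⟨h1.1.1, h1.2.2.1, h1.1.2.2.1.trans h1.2.2.2.1, h1.2.2.2.2.trans h1.1.2.2.2⟩
      have hyw : (y, w) ∈ DoubleSet F' :=
        ⟨h2.1.1, h2.2.2.1, h2.1.2.2.1.trans h2.2.2.2.1, h2.2.2.2.2.trans h2.1.2.2.2⟩
      have hxw : (x, w) ∈ DoubleSet F' :=
        ⟨hxz.1, h2.2.2.1, hxz.2.2.1.trans h2.2.2.2.1, h2.2.2.2.2.trans hxz.2.2.2⟩
      exact humb.gen.quadruple x hxz.1 y hyw.1 z hxz.2.1 w hxw.2.1 (hne h1.1) (hne hxz) (hne hxw)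
        (hne h1.2) (hne hyw) (hne h2.2) h1.1.2.2.1 hxz.2.2.1 hxw.2.2.1
  obtain ⟨G, hG, hGn, hGs⟩ := two_births_le hsl hg
  refine ⟨G, hG, ?_, hGn.trans ?_⟩
  · have h4 : boundaryKnot G = boundaryKnot F' := by
      unfold boundaryKnot
      exact image_congr fun x _ => hGs x
    rw [h4]
    exact boundaryKnot_shear hF a
  · have hgen : Gen (proj F a) := by
      have h5 := humb.gen
      rwa [hsh] at h5
    refine le_trans (encard_le_encard ?_) (bottoms_le_trisecants hF hv3 hgen 0)
    have hR : ∀ x ∈ closedBall (0 : Plane) 1, 0 ≤ F x 3 := by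
      intro x hx
      rcases (mem_closedBall_zero_iff.1 hx).lt_or_eq with h4 | h4
      · exact (hF.interior x (mem_ball_zero_iff.2 h4)).le
      · exact (hF.boundary x (mem_sphere_zero_iff_norm.2 h4)).ge
    have hov : ∀ {x y}, (x, y) ∈ DoubleSet F' → (x, y) ∈ Over (proj F a) (fun x => F x 3)
        {x | x ∈ closedBall (0 : Plane) 1 ∧ 0 ≤ F x 3} := by
      intro x y hxy
      have h6 := hxy.2.2.1
      rw [hsh] at h6
      have h7 := hxy.2.2.2
      rw [h3, h3] at h7
      exact ⟨⟨hxy.1, hR x hxy.1⟩, ⟨hxy.2.1, hR y hxy.2.1⟩, h6, h7⟩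
    rintro z ⟨x, y, h1, h2⟩
    exact ⟨x, y, hov h1, hov h2⟩

end Pool.Agent.Lib_MP_752436_hb
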