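import Mathlib

/-!
Births and half of the triple points: the combinatorial lemma.

`V` is the set of nodes, `O` the set of outer nodes, the gate `i` (for `g i`) joins the nodes `p i`
and `q i`, and `f i` is the node of the bottom point of the triple point `i`.
-/

open Finset

namespace Pool.Agent.Lib_MP_752436_hb

variable {V I : Type}

/-- The set `Z` of nodes contains no outer node, and a gate with only one end in `Z` is the gate of
a triple point with bottom point in `Z`. -/
structure Allowed (O : Set V) (g : I → Prop) (p q f : I → V) (Z : Set V) : Prop where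
  outer : ∀ v ∈ Z, v ∉ O
  gate : ∀ i, g i → f i ∉ Z → (p i ∈ Z ↔ q i ∈ Z)

/-- The relation generated by the gates with bottom node off `X`. -/
private def crel (g : I → Prop) (p q f : I → V) (X : Set V) (a b : V) : Prop :=
  ∃ i, g i ∧ f i ∉ X ∧ a = p i ∧ b = q i

private theorem crel_sat {O : Set V} {g : I → Prop} {p q f : I → V} {X Z : Set V}
    (hZ : Allowed O g p q f Z) (hZX : Z ⊆ X) {a b : V}
    (h : Relation.EqvGen (crel g p q f X) a b) : a ∈ Z ↔ b ∈ Z := by
  induction h with
  | rel a b h =>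
    obtain ⟨i, h1, h2, rfl, rfl⟩ := h
    exact hZ.gate i h1 fun h3 => h2 (hZX h3)
  | refl a => exact Iff.rfl
  | symm a b _ ih => exact ih.symm
  | trans a b c _ _ ih1 ih2 => exact ih1.trans ih2

/-- The largest allowed subset of `X` without `v`. -/
private theorem exists_largest {O : Set V} {g : I → Prop} {p q f : I → V} (X : Set V) (v : V) :
    ∃ Y, Allowed O g p q f Y ∧ Y ⊆ X ∧ v ∉ Y ∧
      ∀ Z, Allowed O g p q f Z → Z ⊆ X → v ∉ Z → Z ⊆ Y := by
  refine ⟨⋃₀ {Z | Allowed O g p q f Z ∧ Z ⊆ X ∧ v ∉ Z}, ⟨?_, ?_⟩, ?_, ?_, ?_⟩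
  · rintro w ⟨Z, hZ, hw⟩
    exact hZ.1.outer w hw
  · intro i hi hf
    constructor
    · rintro ⟨Z, hZ, hw⟩
      exact ⟨Z, hZ, (hZ.1.gate i hi fun h => hf ⟨Z, hZ, h⟩).1 hw⟩
    · rintro ⟨Z, hZ, hw⟩
      exact ⟨Z, hZ, (hZ.1.gate i hi fun h => hf ⟨Z, hZ, h⟩).2 hw⟩
  · rintro w ⟨Z, hZ, hw⟩
    exact hZ.2.1 hw
  · rintro ⟨Z, hZ, hw⟩
    exact hZ.2.2 hw
  · intro Z h1 h2 h3 w hw
    exact ⟨Z, ⟨h1, h2, h3⟩, hw⟩

variable [Fintype I]

open Classical in
/-- The triple points with bottom node in `C`. -/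
noncomputable def labs (f : I → V) (C : Set V) : Finset I := univ.filter fun i => f i ∈ C

open Classical in
/-- The gates with exactly one end in `C`. -/
noncomputable def leaving (g : I → Prop) (p q : I → V) (C : Set V) : Finset I :=
  univ.filter fun i => g i ∧ ¬ (p i ∈ C ↔ q i ∈ C)

theorem mem_labs {f : I → V} {C : Set V} {i : I} : i ∈ labs f C ↔ f i ∈ C := by
  classical
  unfold labs
  rw [mem_filter]
  exact ⟨fun h => h.2, fun h => ⟨mem_univ _, h⟩⟩

theorem mem_leaving {g : I → Prop} {p q : I → V} {C : Set V} {i : I} :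
    i ∈ leaving g p q C ↔ g i ∧ ¬ (p i ∈ C ↔ q i ∈ C) := by
  classical
  unfold leaving
  rw [mem_filter]
  exact ⟨fun h => h.2, fun h => ⟨mem_univ _, h⟩⟩

/-- The number of the triple points with bottom node in `C`. -/
noncomputable def lab (f : I → V) (C : Set V) : ℕ := (labs f C).card

/-- The number of the gates with exactly one end in `C`. -/
noncomputable def deg (g : I → Prop) (p q : I → V) (C : Set V) : ℕ := (leaving g p q C).card

variable [Fintype V]

/-- If every class carries at most one triple point, no gate leaves `X`. -/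
private theorem no_leaving {O : Set V} {g : I → Prop} {p q f : I → V}
    (H2 : ∀ C : Set V, (∀ v ∈ C, v ∉ O) → Even (deg g p q C))
    (H : ∀ C : Set V, C.Nonempty → (∀ v ∈ C, v ∉ O) → (∀ i, g i → (p i ∈ C ↔ q i ∈ C)) →
      Even (lab f C) ∧ 0 < lab f C)
    {X : Set V} (hX : Allowed O g p q f X)
    (hB : ∀ v ∈ X, lab f {w | Relation.EqvGen (crel g p q f X) w v} ≤ 1) :
    ∀ i, g i → (p i ∈ X ↔ q i ∈ X) := by
  classical
  set s : Setoid V := Relation.EqvGen.setoid (crel g p q f X) with hs
  have hmk : ∀ a b : V, (Quotient.mk s a = Quotient.mk s b) ↔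
      Relation.EqvGen (crel g p q f X) a b := fun a b => Quotient.eq (r := s)
  have hsat : ∀ a b : V, Quotient.mk s a = Quotient.mk s b → (a ∈ X ↔ b ∈ X) := fun a b h =>
    crel_sat hX subset_rfl ((hmk a b).1 h)
  let : Fintype (Quotient s) := Fintype.ofFinite _
  set W : Finset (Quotient s) := (univ.filter fun v => v ∈ X).image (Quotient.mk s) with hW
  have hWm : ∀ v, Quotient.mk s v ∈ W ↔ v ∈ X := by
    intro v
    rw [hW, mem_image]
    constructor
    · rintro ⟨u, hu, h⟩
      exact (hsat _ _ h).1 (mem_filter.1 hu).2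
    · intro h
      exact ⟨v, mem_filter.2 ⟨mem_univ _, h⟩, rfl⟩
  set U : Finset I := univ.filter fun i => f i ∈ X with hU
  set G : Finset I := univ.filter fun i => g i ∧ f i ∈ X with hG
  have hGU : G ⊆ U := fun i hi => mem_filter.2 ⟨mem_univ _, (mem_filter.1 hi).2.2⟩
  -- the classes
  have hlabW : ∀ w ∈ W, lab f {v | Quotient.mk s v = w} ≤ 1 := by
    intro w hw
    obtain ⟨v, hv, rfl⟩ := mem_image.1 hw
    have h1 := hB v (mem_filter.1 hv).2
    have h2 : {u | Quotient.mk s u = Quotient.mk s v} =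
        {w | Relation.EqvGen (crel g p q f X) w v} := by
      ext u
      exact hmk u v
    rw [h2]
    exact h1
  have hdeg : ∀ w ∈ W, 2 ≤ deg g p q {v | Quotient.mk s v = w} := by
    intro w hw
    have hO : ∀ v ∈ {v | Quotient.mk s v = w}, v ∉ O := by
      intro v hv
      have h1 : Quotient.mk s v = w := hv
      exact hX.outer v ((hWm v).1 (h1 ▸ hw))
    have heven := H2 _ hO
    by_contra hlt
    have h0 : deg g p q {v | Quotient.mk s v = w} = 0 := by
      rcases heven with ⟨k, hk⟩
      omega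
    have hne : ({v | Quotient.mk s v = w} : Set V).Nonempty := by
      obtain ⟨v, _, hv⟩ := mem_image.1 hw
      exact ⟨v, hv⟩
    have h1 := H _ hne hO (by
      intro i hi
      by_contra hcon
      unfold deg at h0
      rw [card_eq_zero] at h0
      have h1 : i ∈ (∅ : Finset I) := by
        rw [← h0]
        exact mem_leaving.2 ⟨hi, hcon⟩
      simp at h1)
    have h2 := hlabW w hw
    obtain ⟨⟨k, hk⟩, h3⟩ := h1
    omega
  -- double counting
  set δ : I → ℕ := fun i => (W.filter fun w => ¬ (Quotient.mk s (p i) = w ↔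
    Quotient.mk s (q i) = w)).card with hδ
  have hδ2 : ∀ i, δ i ≤ 2 := by
    intro i
    have h1 : (W.filter fun w => ¬ (Quotient.mk s (p i) = w ↔ Quotient.mk s (q i) = w)) ⊆
        {Quotient.mk s (p i), Quotient.mk s (q i)} := by
      intro w hw
      have h2 := (mem_filter.1 hw).2
      rw [mem_insert, mem_singleton]
      by_contra hcon
      push Not at hcon
      exact h2 ⟨fun h => absurd h.symm hcon.1, fun h => absurd h.symm hcon.2⟩
    exact (card_le_card h1).trans card_le_two
  have hsum : ∑ w ∈ W, deg g p q {v | Quotient.mk s v = w} = ∑ i ∈ G, δ i := by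
    have h1 : ∀ w ∈ W, deg g p q {v | Quotient.mk s v = w} =
        (G.filter fun i => ¬ (Quotient.mk s (p i) = w ↔ Quotient.mk s (q i) = w)).card := by
      intro w _
      unfold deg
      congr 1
      ext i
      rw [mem_leaving, mem_filter, hG, mem_filter]
      constructor
      · rintro ⟨h1, h2⟩
        refine ⟨⟨mem_univ _, h1, ?_⟩, h2⟩
        by_contra h3
        apply h2
        have h4 : Quotient.mk s (p i) = Quotient.mk s (q i) :=
          (hmk _ _).2 (Relation.EqvGen.rel _ _ ⟨i, h1, h3, rfl, rfl⟩)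
        show (Quotient.mk s (p i) = w) ↔ (Quotient.mk s (q i) = w)
        rw [h4]
      · rintro ⟨⟨_, h1, _⟩, h2⟩
        exact ⟨h1, h2⟩
    rw [sum_congr rfl h1]
    exact sum_card_bipartiteAbove_eq_sum_card_bipartiteBelow
      (fun w i => ¬ (Quotient.mk s (p i) = w ↔ Quotient.mk s (q i) = w))
  have hlow : 2 * W.card ≤ ∑ i ∈ G, δ i := by
    rw [← hsum, mul_comm, ← smul_eq_mul]
    exact card_nsmul_le_sum _ _ _ hdeg
  have hUW : U.card ≤ W.card := by
    refine card_le_card_of_injOn (fun i => Quotient.mk s (f i)) ?_ ?_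
    · intro i hi
      exact (hWm _).2 (mem_filter.1 hi).2
    · intro i hi j hj hij
      have hij' : Quotient.mk s (f i) = Quotient.mk s (f j) := hij
      have h1 := hlabW (Quotient.mk s (f i)) ((hWm _).2 (mem_filter.1 hi).2)
      unfold lab at h1
      exact card_le_one.1 h1 i (mem_labs.2 rfl) j (mem_labs.2 hij'.symm)
  have hupG : ∑ i ∈ G, δ i ≤ 2 * G.card := by
    rw [mul_comm, ← smul_eq_mul]
    exact sum_le_card_nsmul _ _ _ fun i _ => hδ2 i
  have hGUc : G.card ≤ U.card := card_le_card hGU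
  have heq : ∑ i ∈ G, δ i = 2 * G.card := by omega
  have hall : ∀ i ∈ G, δ i = 2 := by
    by_contra hcon
    push Not at hcon
    obtain ⟨j, hj, hj2⟩ := hcon
    have h1 : ∑ i ∈ G, δ i < ∑ i ∈ G, 2 :=
      sum_lt_sum (fun i _ => hδ2 i) ⟨j, hj, lt_of_le_of_ne (hδ2 j) hj2⟩
    rw [sum_const, smul_eq_mul] at h1
    omega
  intro i hi
  by_cases hf : f i ∈ X
  · have h1 := hall i (mem_filter.2 ⟨mem_univ _, hi, hf⟩)
    have h2 : ∀ v, (v = p i ∨ v = q i) → v ∈ X := by
      intro v hv
      by_contra hvX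
      have h3 : (W.filter fun w => ¬ (Quotient.mk s (p i) = w ↔ Quotient.mk s (q i) = w)) ⊆
          ({Quotient.mk s (p i), Quotient.mk s (q i)} : Finset _).erase (Quotient.mk s v) := by
        intro w hw
        rw [mem_erase]
        refine ⟨?_, ?_⟩
        · rintro rfl
          exact hvX ((hWm v).1 (mem_filter.1 hw).1)
        · have h2 := (mem_filter.1 hw).2
          rw [mem_insert, mem_singleton]
          by_contra hcon
          push Not at hcon
          exact h2 ⟨fun h => absurd h.symm hcon.1, fun h => absurd h.symm hcon.2⟩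
      have h4 : Quotient.mk s v ∈ ({Quotient.mk s (p i), Quotient.mk s (q i)} : Finset _) := by
        rw [mem_insert, mem_singleton]
        rcases hv with rfl | rfl
        · exact Or.inl rfl
        · exact Or.inr rfl
      have h5 := card_le_card h3
      rw [card_erase_of_mem h4] at h5
      have h6 : ({Quotient.mk s (p i), Quotient.mk s (q i)} : Finset (Quotient s)).card ≤ 2 :=
        card_le_two
      have h7 : (W.filter fun w => ¬ (Quotient.mk s (p i) = w ↔
        Quotient.mk s (q i) = w)).card = 2 := h1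
      omega
    exact ⟨fun _ => h2 _ (Or.inr rfl), fun _ => h2 _ (Or.inl rfl)⟩
  · exact hX.gate i hi hf

/-- There are at most half as many seeds as triple points which meet all allowed sets. -/
theorem exists_seeds {O : Set V} {g : I → Prop} {p q f : I → V}
    (H2 : ∀ C : Set V, (∀ v ∈ C, v ∉ O) → Even (deg g p q C))
    (H : ∀ C : Set V, C.Nonempty → (∀ v ∈ C, v ∉ O) → (∀ i, g i → (p i ∈ C ↔ q i ∈ C)) →
      Even (lab f C) ∧ 0 < lab f C) :
    ∀ (k : ℕ) (X : Set V), X.ncard ≤ k → Allowed O g p q f X →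
      ∃ S : Finset V, (∀ v ∈ S, v ∈ X) ∧ 2 * S.card ≤ lab f X ∧
        ∀ Z, Allowed O g p q f Z → Z ⊆ X → Z.Nonempty → ∃ v ∈ S, v ∈ Z := by
  classical
  intro k
  induction k with
  | zero =>
    intro X hk _
    refine ⟨∅, by simp, by simp, fun Z _ hZX hZ => ?_⟩
    have h1 : X = ∅ := by
      rw [← Set.ncard_eq_zero (Set.toFinite X)]
      omega
    rw [h1] at hZX
    exact absurd (Set.subset_empty_iff.1 hZX) hZ.ne_empty
  | succ k ih =>
    intro X hk hX
    -- seeding the node `v`
    have step : ∀ v ∈ X, ∃ Y : Set V, ∃ S : Finset V, (∀ w ∈ S, w ∈ X) ∧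
        2 * S.card ≤ lab f Y + 2 ∧ 2 * (S.card - 1) ≤ lab f Y ∧ 0 < S.card ∧
        lab f Y + lab f {w | Relation.EqvGen (crel g p q f X) w v} ≤ lab f X ∧
        ∀ Z, Allowed O g p q f Z → Z ⊆ X → Z.Nonempty → ∃ w ∈ S, w ∈ Z := by
      intro v hv
      obtain ⟨Y, hY, hYX, hvY, hmax⟩ := exists_largest (O := O) (g := g) (p := p) (q := q)
        (f := f) X v
      have hlt : Y.ncard < X.ncard :=
        Set.ncard_lt_ncard ⟨hYX, fun h => hvY (h hv)⟩ (Set.toFinite X)
      obtain ⟨S, hS1, hS2, hS3⟩ := ih Y (by omega) hY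
      have hvS : v ∉ S := fun h => hvY (hS1 v h)
      refine ⟨Y, insert v S, ?_, ?_, ?_, ?_, ?_, ?_⟩
      · intro w hw
        rcases mem_insert.1 hw with rfl | hw
        · exact hv
        · exact hYX (hS1 w hw)
      · rw [card_insert_of_notMem hvS]
        omega
      · rw [card_insert_of_notMem hvS]
        simpa using hS2
      · rw [card_insert_of_notMem hvS]
        omega
      · unfold lab
        rw [← card_union_of_disjoint]
        · refine card_le_card fun i hi => ?_
          rcases mem_union.1 hi with hi | hi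
          · exact mem_labs.2 (hYX (mem_labs.1 hi))
          · have h1 : Relation.EqvGen (crel g p q f X) (f i) v := mem_labs.1 hi
            exact mem_labs.2 ((crel_sat hX subset_rfl h1).2 hv)
        · rw [disjoint_left]
          intro i hi hi'
          have h1 : Relation.EqvGen (crel g p q f X) (f i) v := mem_labs.1 hi'
          exact hvY ((crel_sat hY hYX h1).1 (mem_labs.1 hi))
      · intro Z hZ hZX hZne
        by_cases hvZ : v ∈ Z
        · exact ⟨v, mem_insert_self _ _, hvZ⟩
        · obtain ⟨w, hw, hwZ⟩ := hS3 Z hZ (hmax Z hZ hZX hvZ) hZne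
          exact ⟨w, mem_insert_of_mem hw, hwZ⟩
    rcases X.eq_empty_or_nonempty with rfl | hXne
    · refine ⟨∅, by simp, by simp, fun Z _ hZX hZ => ?_⟩
      exact absurd (Set.subset_empty_iff.1 hZX) hZ.ne_empty
    by_cases hA : ∃ v ∈ X, 2 ≤ lab f {w | Relation.EqvGen (crel g p q f X) w v}
    · obtain ⟨v, hv, h2⟩ := hA
      obtain ⟨Y, S, h3, h4, _, _, h5, h6⟩ := step v hv
      exact ⟨S, h3, by omega, h6⟩
    · push Not at hA
      have hgate := no_leaving H2 H hX fun v hv => by
        have := hA v hv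
        omega
      obtain ⟨heven, hpos⟩ := H X hXne hX.outer hgate
      obtain ⟨i, hi⟩ := card_pos.1 hpos
      have hfi : f i ∈ X := mem_labs.1 hi
      obtain ⟨Y, S, h3, _, h4, h4', h5, h6⟩ := step (f i) hfi
      have h7 : 0 < lab f {w | Relation.EqvGen (crel g p q f X) w (f i)} :=
        card_pos.2 ⟨i, mem_labs.2 (Relation.EqvGen.refl _)⟩
      refine ⟨S, h3, ?_, h6⟩
      obtain ⟨m, hm⟩ := heven
      omega

/-- There are at most half as many seeds as triple points which meet all nonempty allowed sets. -/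
theorem exists_seeds_all {O : Set V} {g : I → Prop} {p q f : I → V}
    (H2 : ∀ C : Set V, (∀ v ∈ C, v ∉ O) → Even (deg g p q C))
    (H : ∀ C : Set V, C.Nonempty → (∀ v ∈ C, v ∉ O) → (∀ i, g i → (p i ∈ C ↔ q i ∈ C)) →
      Even (lab f C) ∧ 0 < lab f C) :
    ∃ S : Finset V, 2 * S.card ≤ Fintype.card I ∧
      ∀ Z, Allowed O g p q f Z → Z.Nonempty → ∃ v ∈ S, v ∈ Z := by
  have hX : Allowed O g p q f (⋃₀ {Z | Allowed O g p q f Z}) := by
    refine ⟨?_, ?_⟩
    · rintro w ⟨Z, hZ, hw⟩
      exact Allowed.outer hZ w hw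
    · intro i hi hf
      constructor
      · rintro ⟨Z, hZ, hw⟩
        exact ⟨Z, hZ, (Allowed.gate hZ i hi fun h => hf ⟨Z, hZ, h⟩).1 hw⟩
      · rintro ⟨Z, hZ, hw⟩
        exact ⟨Z, hZ, (Allowed.gate hZ i hi fun h => hf ⟨Z, hZ, h⟩).2 hw⟩
  obtain ⟨S, _, h2, h3⟩ := exists_seeds H2 H _ _ le_rfl hX
  refine ⟨S, h2.trans ?_, fun Z hZ hne => h3 Z hZ (fun v hv => ⟨Z, hZ, hv⟩) hne⟩
  exact card_le_univ _

end Pool.Agent.Lib_MP_752436_hb
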