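import Pool.Agent.Lib_MP_752436_ch.TurnEdges

/-!
Births and half of the triple points: cutting the double curves at the vertices, with uniqueness of
the incoming edges (the proof of `exists_edges` with two more conclusions).
-/

open MeasureTheory Metric Set Filter
open scoped ContDiff Topology

namespace Pool.Agent.Lib_MP_752436_hb

open Pool.Agent.Lib_MP_752436_gt Pool.Agent.Lib_MP_752436_tp Pool.Agent.Lib_MP_752436_ch

/-- the parameters at which the curve is cut -/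
private def cutSet' {ι : Type} (c : ι → ℝ → Plane × Plane) (D : Set (Plane × Plane)) (i : ι) :
    Set ℝ :=
  {t | t ∈ Icc (0 : ℝ) 1 ∧ (t = 0 ∨ t = 1 ∨ c i t ∈ vertices D)}

private theorem cutSet'_finite {D : Set (Plane × Plane)} (hD : (vertices D).Finite) {ι : Type}
    {c : ι → ℝ → Plane × Plane} (hc : CurveSystem c D) (i : ι) : (cutSet' c D i).Finite := by
  have h1 : (Ico (0 : ℝ) 1 ∩ c i ⁻¹' vertices D).Finite := by
    have h2 : InjOn (c i) (Ico (0 : ℝ) 1 ∩ c i ⁻¹' vertices D) := by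
      rintro s ⟨hs, _⟩ t ⟨ht, _⟩ hst
      rcases (hc.inj i i s ⟨hs.1, hs.2.le⟩ t ⟨ht.1, ht.2.le⟩ hst).2 with h | h | h
      · exact h
      · exact absurd h.2 ht.2.ne
      · exact absurd h.1 hs.2.ne
    refine Finite.of_finite_image (hD.subset ?_) h2
    rintro _ ⟨t, ht, rfl⟩
    exact ht.2
  refine (h1.union (Set.toFinite ({0, 1} : Set ℝ))).subset ?_
  rintro t ⟨ht, h | h | h⟩
  · exact Or.inr (Or.inl h)
  · exact Or.inr (Or.inr h)
  · rcases ht.2.lt_or_eq with h1 | h1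
    · exact Or.inl ⟨⟨ht.1, h1⟩, h⟩
    · exact Or.inr (Or.inr h1)

/-- Cut every curve at the parameters `0`, `1` and at the parameters of vertices. -/
theorem exists_edges_finish {D : Set (Plane × Plane)} (hD : (vertices D).Finite) {ι : Type} [Finite ι]
    {c : ι → ℝ → Plane × Plane} (hc : CurveSystem c D) :
    ∃ (κ : Type) (_ : Fintype κ) (c' : κ → ℝ → Plane × Plane) (a b : κ → ℝ), Edges c' a b D ∧
      (∀ e e', c' e (b e) = c' e' (b e') → e = e') ∧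
      ∀ e, ∀ t ∈ Ioo (a e) (b e), ∃ i, ∃ s ∈ Ioo (0 : ℝ) 1, c' e t = c i s := by
  have hT : ∀ i, (cutSet' c D i).Finite := fun i => cutSet'_finite hD hc i
  have h0 : ∀ i, (0 : ℝ) ∈ cutSet' c D i := fun i => ⟨⟨le_rfl, zero_le_one⟩, Or.inl rfl⟩
  have h1 : ∀ i, (1 : ℝ) ∈ cutSet' c D i := fun i => ⟨⟨zero_le_one, le_rfl⟩, Or.inr (Or.inl rfl)⟩
  let κ : Type := {p : ι × ℝ // p.2 ∈ cutSet' c D p.1 ∧ p.2 < 1}
  have hfin : Finite κ := by
    have h2 : {p : ι × ℝ | p.2 ∈ cutSet' c D p.1 ∧ p.2 < 1}.Finite := by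
      have h3 : (⋃ i, (fun t => ((i, t) : ι × ℝ)) '' cutSet' c D i).Finite :=
        Set.finite_iUnion fun i => (hT i).image _
      refine h3.subset ?_
      rintro ⟨i, t⟩ ⟨ht, _⟩
      exact mem_iUnion.2 ⟨i, t, ht, rfl⟩
    exact h2.to_subtype
  have hnext : ∀ e : κ, ∃ b ∈ cutSet' c D e.1.1, e.1.2 < b ∧
      ∀ t ∈ cutSet' c D e.1.1, e.1.2 < t → b ≤ t := by
    intro e
    obtain ⟨b, hb, hb'⟩ := Set.exists_min_image {t | t ∈ cutSet' c D e.1.1 ∧ e.1.2 < t} id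
      ((hT e.1.1).subset fun t ht => ht.1) ⟨1, h1 _, e.2.2⟩
    exact ⟨b, hb.1, hb.2, fun t ht ht' => hb' t ⟨ht, ht'⟩⟩
  choose b hb1 hb2 hb3 using hnext
  have hprev : ∀ i, ∀ t ∈ Icc (0 : ℝ) 1, 0 < t → ∃ e : κ, e.1.1 = i ∧ e.1.2 < t ∧ t ≤ b e := by
    intro i t ht ht0
    obtain ⟨s, hs, hs'⟩ := Set.exists_max_image {s | s ∈ cutSet' c D i ∧ s < t} id
      ((hT i).subset fun t ht => ht.1) ⟨0, h0 i, ht0⟩
    refine ⟨⟨(i, s), hs.1, hs.2.trans_le ht.2⟩, rfl, hs.2, ?_⟩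
    by_contra h
    have h3 := hs' _ ⟨hb1 ⟨(i, s), hs.1, hs.2.trans_le ht.2⟩, not_le.1 h⟩
    exact absurd (hb2 ⟨(i, s), hs.1, hs.2.trans_le ht.2⟩) (not_lt.2 h3)
  have ha01 : ∀ e : κ, e.1.2 ∈ Icc (0 : ℝ) 1 := fun e => e.2.1.1
  have hb01 : ∀ e : κ, b e ∈ Icc (0 : ℝ) 1 := fun e => (hb1 e).1
  have hI : ∀ e : κ, ∀ t ∈ Icc e.1.2 (b e), t ∈ Icc (0 : ℝ) 1 := fun e t ht =>
    ⟨(ha01 e).1.trans ht.1, ht.2.trans (hb01 e).2⟩
  have hcov : ∀ p ∈ D, ∃ e : κ, ∃ t ∈ Icc e.1.2 (b e), c e.1.1 t = p := by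
    intro p hp
    rw [hc.cover] at hp
    obtain ⟨i, t, ht, rfl⟩ := mem_iUnion.1 hp
    rcases ht.1.lt_or_eq with h | h
    · obtain ⟨e, he, h2, h3⟩ := hprev i t ht h
      exact ⟨e, t, ⟨h2.le, h3⟩, by rw [he]⟩
    · subst h
      exact ⟨⟨(i, 0), h0 i, zero_lt_one⟩, 0, ⟨le_rfl, (hb2 ⟨(i, 0), h0 i, zero_lt_one⟩).le⟩, rfl⟩
  have hlast : ∀ i, ∀ t ∈ cutSet' c D i, 0 < t → ∃ e : κ, e.1.1 = i ∧ b e = t := by
    intro i t ht ht0
    obtain ⟨e, he, h2, h3⟩ := hprev i t ht.1 ht0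
    refine ⟨e, he, le_antisymm (hb3 e t ?_ h2) h3⟩
    rw [he]
    exact ht
  refine ⟨κ, Fintype.ofFinite κ, fun e => c e.1.1, fun e => e.1.2, b, ?_, ?_, ?_⟩
  rotate_left
  · intro e e' h
    have hh := hc.inj e.1.1 e'.1.1 (b e) (hb01 e) (b e') (hb01 e') h
    have h4 : b e = b e' := by
      rcases hh.2 with h2 | h2 | h2
      · exact h2
      · exact absurd h2.1 ((ha01 e).1.trans_lt (hb2 e)).ne'
      · exact absurd h2.2 ((ha01 e').1.trans_lt (hb2 e')).ne'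
    obtain ⟨⟨i, s⟩, hs⟩ := e
    obtain ⟨⟨j, s'⟩, hs'⟩ := e'
    obtain rfl : i = j := hh.1
    have h3 : s = s' := by
      rcases lt_trichotomy s s' with h5 | h5 | h5
      · have h6 := hb3 ⟨(i, s), hs⟩ s' hs'.1 h5
        rw [h4] at h6
        exact absurd (hb2 ⟨(i, s'), hs'⟩) (not_lt.2 h6)
      · exact h5
      · have h6 := hb3 ⟨(i, s'), hs'⟩ s hs.1 h5
        rw [← h4] at h6
        exact absurd (hb2 ⟨(i, s), hs⟩) (not_lt.2 h6)
    subst h3
    rfl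
  · intro e t ht
    exact ⟨e.1.1, t, ⟨(ha01 e).1.trans_lt ht.1, ht.2.trans_le (hb01 e).2⟩, rfl⟩
  refine ⟨hb2, fun e => hc.smooth _, fun e t ht => hc.regular _ t (hI e t ht), ?_, ?_, ?_, hcov,
    ?_, ?_, ?_⟩
  · intro e t ht
    exact hc.cover.symm ▸ (mem_iUnion.2 ⟨e.1.1, t, hI e t ht, rfl⟩ : c e.1.1 t ∈ ⋃ i, c i '' Icc 0 1)
  · intro e t ht hv
    exact absurd (hb3 e t ⟨hI e t ⟨ht.1.le, ht.2.le⟩, Or.inr (Or.inr hv)⟩ ht.1) (not_le.2 ht.2)
  · intro e e' t ht t' ht' h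
    have hh := hc.inj e.1.1 e'.1.1 t (hI e t ⟨ht.1.le, ht.2.le⟩) t' (hI e' t' ht') h
    have htt : t = t' := by
      rcases hh.2 with h2 | h2 | h2
      · exact h2
      · exact absurd h2.1 ((ha01 e).1.trans_lt ht.1).ne'
      · exact absurd h2.1 (ht.2.trans_le (hb01 e).2).ne
    subst htt
    refine ⟨?_, rfl⟩
    obtain ⟨⟨i, s⟩, hs⟩ := e
    obtain ⟨⟨j, s'⟩, hs'⟩ := e'
    obtain rfl : i = j := hh.1
    have h3 : s = s' := by
      rcases lt_trichotomy s s' with h4 | h4 | h4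
      · exact absurd (hb3 ⟨(i, s), hs⟩ s' hs'.1 h4) (not_le.2 (ht'.1.trans_lt ht.2))
      · exact h4
      · exact absurd (hb3 ⟨(i, s'), hs'⟩ s hs.1 h4) (not_le.2 (ht.1.trans_le ht'.2))
    subst h3
    rfl
  · intro e e' h
    have hh := hc.inj e.1.1 e'.1.1 e.1.2 (ha01 e) e'.1.2 (ha01 e') h
    obtain ⟨⟨i, s⟩, hs⟩ := e
    obtain ⟨⟨j, s'⟩, hs'⟩ := e'
    obtain rfl : i = j := hh.1
    have h3 : s = s' := by
      rcases hh.2 with h2 | h2 | h2
      · exact h2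
      · exact absurd h2.2 hs'.2.ne
      · exact absurd h2.1 hs.2.ne
    subst h3
    rfl
  · intro p hp hp1 hno
    obtain ⟨e, t, ht, rfl⟩ := hcov p hp
    rcases ht.1.lt_or_eq with h2 | h2
    · rcases ht.2.lt_or_eq with h3 | h3
      · exact absurd rfl (hno e t ⟨h2, h3⟩)
      · subst h3
        rcases (hb01 e).2.lt_or_eq with h4 | h4
        · exact ⟨⟨(e.1.1, b e), hb1 e, h4⟩, rfl⟩
        · refine ⟨⟨(e.1.1, 0), h0 _, zero_lt_one⟩, ?_⟩
          rcases hc.ends e.1.1 with h5 | h5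
          · show c e.1.1 0 = c e.1.1 (b e)
            rw [h4, h5]
          · rw [h4] at hp1
            have h6 : ‖(c e.1.1 1).2‖ < 1 := mem_ball_zero_iff.1 hp1
            have h7 : ‖(c e.1.1 1).2‖ = 1 := mem_sphere_zero_iff_norm.1 h5.2
            exact absurd h7 h6.ne
    · exact ⟨e, by rw [← h2]⟩
  · intro p hp hp1 hno
    obtain ⟨e, t, ht, rfl⟩ := hcov p hp
    rcases ht.2.lt_or_eq with h3 | h3
    · rcases ht.1.lt_or_eq with h2 | h2
      · exact absurd rfl (hno e t ⟨h2, h3⟩)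
      · subst h2
        rcases (ha01 e).1.lt_or_eq with h4 | h4
        · obtain ⟨e', he', hbe⟩ := hlast e.1.1 e.1.2 e.2.1 h4
          exact ⟨e', by show c e'.1.1 (b e') = _; rw [he', hbe]⟩
        · obtain ⟨e', he', hbe⟩ := hlast e.1.1 1 (h1 _) zero_lt_one
          refine ⟨e', ?_⟩
          show c e'.1.1 (b e') = _
          rw [he', hbe, ← h4]
          rcases hc.ends e.1.1 with h5 | h5
          · exact h5.symm
          · rw [← h4] at hp1
            have h6 : ‖(c e.1.1 0).2‖ < 1 := mem_ball_zero_iff.1 hp1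
            have h7 : ‖(c e.1.1 0).2‖ = 1 := mem_sphere_zero_iff_norm.1 h5.1
            exact absurd h7 h6.ne
    · exact ⟨e, by show c e.1.1 (b e) = _; rw [← h3]⟩

/-- Uniqueness of the incoming edges after the turning. -/
theorem finish_turn {D Φ : Set (Plane × Plane)} (hS : Strict D) {κ : Type}
    {c : κ → ℝ → Plane × Plane} {a b : κ → ℝ} (hE : Edges c a b D)
    (h : ∀ e e', c e (b e) = c e' (b e') → e = e') :
    ∀ e e', turnEdge Φ c a e (b e) = turnEdge Φ c a e' (b e') → e = e' := by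
  classical
  intro e e' he
  have hno : ∀ p : Plane × Plane, p ∈ D → p.swap ∈ D → False := fun p h1 h2 =>
    hS.irrefl p.1 (hS.trans p.1 p.2 p.1 h1 h2)
  have h1 := hE.mem e (b e) (right_mem_Icc.2 (hE.lt e).le)
  have h2 := hE.mem e' (b e') (right_mem_Icc.2 (hE.lt e').le)
  unfold turnEdge at he
  apply h
  split_ifs at he with h3 h4 h4
  · exact Prod.swap_injective he
  · exact (hno _ h1 (by rw [he]; exact h2)).elim
  · exact (hno _ h2 (by rw [← he]; exact h1)).elim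
  · exact he

end Pool.Agent.Lib_MP_752436_hb
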