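import Pool.Agent.Lib_MP_752436_hb.AE

/-!
Ribbon knots, births and trisecants.
-/

open MeasureTheory Metric Set Filter
open scoped ContDiff Topology

namespace Pool.Agent.Lib_MP_752436_hb

open Pool.Agent.Lib_MP_752436_gt Pool.Agent.Lib_MP_752436_tp Pool.Agent.Lib_MP_752436_rb
  Pool.Agent.Lib_MP_752436_ts

variable {F : Plane → EuclideanSpace ℝ (Fin 4)}

/-- The direction `v` is not tangent to the disc. -/
def Nontangent (F : Plane → EuclideanSpace ℝ (Fin 4)) (v : EuclideanSpace ℝ (Fin 4)) : Prop :=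
  ∀ x ∈ closedBall (0 : Plane) 1, ∀ u, fderiv ℝ F x u ≠ v

/-- The projection of a tangent direction. -/
theorem fderiv_shadow_of_tangent (hF : IsSliceDisc F) {v : EuclideanSpace ℝ (Fin 4)}
    (hv3 : v 3 ≠ 0) {x u : Plane} (hu : fderiv ℝ F x u = v) :
    fderiv ℝ (shadow F) x u = -(fderiv ℝ (fun y => F y 3) x u) • dirVec v := by
  have hs : ContDiff ℝ ∞ (shadow F) := contDiff_shadow hF
  have hFd : DifferentiableAt ℝ F x := hF.smooth.differentiable (by simp) x
  have hci : ∀ i w, fderiv ℝ (fun y => F y i) x w = (fderiv ℝ F x w) i := by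
    intro i w
    have h1 : HasFDerivAt (fun y => F y i) ((EuclideanSpace.proj (𝕜 := ℝ) i).comp (fderiv ℝ F x)) x :=
      (EuclideanSpace.proj (𝕜 := ℝ) i).hasFDerivAt.comp x hFd.hasFDerivAt
    rw [h1.fderiv]
    rfl
  have hsi : ∀ i w, fderiv ℝ (fun y => shadow F y i) x w = (fderiv ℝ (shadow F) x w) i := by
    intro i w
    have h1 : HasFDerivAt (fun y => shadow F y i)
        ((EuclideanSpace.proj (𝕜 := ℝ) i).comp (fderiv ℝ (shadow F) x)) x :=
      (EuclideanSpace.proj (𝕜 := ℝ) i).hasFDerivAt.comp x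
        (hs.differentiable (by simp) x).hasFDerivAt
    rw [h1.fderiv]
    rfl
  have h0 : (fderiv ℝ (shadow F) x u) 0 = v 0 := by
    rw [← hsi, ← hu]
    exact hci 0 u
  have h1 : (fderiv ℝ (shadow F) x u) 1 = v 1 := by
    rw [← hsi, ← hu]
    exact hci 1 u
  have h2 : (fderiv ℝ (shadow F) x u) 2 = v 2 := by
    rw [← hsi, ← hu]
    exact hci 2 u
  have h3 : fderiv ℝ (fun y => F y 3) x u = v 3 := by rw [hci, hu]
  rw [h3]
  ext i
  fin_cases i
  · show (fderiv ℝ (shadow F) x u) 0 = -(v 3) * (-(v 0) / v 3)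
    rw [h0]
    field_simp
  · show (fderiv ℝ (shadow F) x u) 1 = -(v 3) * (-(v 1) / v 3)
    rw [h1]
    field_simp
  · show (fderiv ℝ (shadow F) x u) 2 = -(v 3) * (-(v 2) / v 3)
    rw [h2]
    field_simp

/-- A compactness estimate. -/
theorem exists_small {A : Plane → Plane →L[ℝ] Space} {B : Plane → Plane →L[ℝ] ℝ}
    (hA : Continuous A) (hB : Continuous B)
    (him : ∀ x ∈ closedBall (0 : Plane) 1, Function.Injective (A x)) :
    ∃ ε > 0, ∀ a : Space, ‖a‖ < ε → ∀ x ∈ closedBall (0 : Plane) 1, ∀ u, A x u = -(B x u) • a →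
      u = 0 := by
  have hK : IsCompact (closedBall (0 : Plane) 1 ×ˢ sphere (0 : Plane) 1) :=
    (isCompact_closedBall 0 1).prod (isCompact_sphere 0 1)
  have hc1 : Continuous fun p : Plane × Plane => A p.1 p.2 :=
    (hA.comp continuous_fst).clm_apply continuous_snd
  have hc2 : Continuous fun p : Plane × Plane => B p.1 p.2 :=
    (hB.comp continuous_fst).clm_apply continuous_snd
  obtain ⟨M, hM⟩ := hK.exists_bound_of_continuousOn hc2.continuousOn
  rcases (closedBall (0 : Plane) 1 ×ˢ sphere (0 : Plane) 1).eq_empty_or_nonempty with he | hne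
  · refine ⟨1, one_pos, fun a _ x hx u _ => ?_⟩
    by_contra hu0
    have hun : 0 < ‖u‖ := norm_pos_iff.2 hu0
    have hwn : ‖u‖⁻¹ • u ∈ sphere (0 : Plane) 1 := by
      rw [mem_sphere_zero_iff_norm, norm_smul, norm_inv, norm_norm, inv_mul_cancel₀ hun.ne']
    have h1 : (x, ‖u‖⁻¹ • u) ∈ closedBall (0 : Plane) 1 ×ˢ sphere (0 : Plane) 1 :=
      Set.mk_mem_prod hx hwn
    rw [he] at h1
    exact h1
  obtain ⟨p0, hp0, hmin⟩ := hK.exists_isMinOn hne hc1.norm.continuousOn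
  have hmin' : ∀ q ∈ closedBall (0 : Plane) 1 ×ˢ sphere (0 : Plane) 1,
      ‖A p0.1 p0.2‖ ≤ ‖A q.1 q.2‖ := fun q hq => hmin hq
  have hm0 : 0 < ‖A p0.1 p0.2‖ := by
    rw [norm_pos_iff]
    intro h0
    have h1 : p0.2 = 0 := (injective_iff_map_eq_zero _).1 (him p0.1 hp0.1) _ h0
    have h2 := mem_sphere_zero_iff_norm.1 hp0.2
    rw [h1, norm_zero] at h2
    exact zero_ne_one h2
  generalize ‖A p0.1 p0.2‖ = m at hmin' hm0
  have hM0 : 0 ≤ M := (norm_nonneg _).trans (hM p0 hp0)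
  refine ⟨m / (M + 1), by positivity, fun a ha x hx u hu => ?_⟩
  by_contra hu0
  have hun : 0 < ‖u‖ := norm_pos_iff.2 hu0
  have hwn : ‖u‖⁻¹ • u ∈ sphere (0 : Plane) 1 := by
    rw [mem_sphere_zero_iff_norm, norm_smul, norm_inv, norm_norm, inv_mul_cancel₀ hun.ne']
  have h4 := hmin' (x, ‖u‖⁻¹ • u) (Set.mk_mem_prod hx hwn)
  have h5 : ‖B x (‖u‖⁻¹ • u)‖ ≤ M := hM (x, ‖u‖⁻¹ • u) (Set.mk_mem_prod hx hwn)
  have h6 : A x (‖u‖⁻¹ • u) = -(B x (‖u‖⁻¹ • u)) • a := by
    rw [map_smul, map_smul, hu, smul_smul]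
    simp only [smul_eq_mul, mul_neg]
  have h6' : ‖A x (‖u‖⁻¹ • u)‖ = ‖B x (‖u‖⁻¹ • u)‖ * ‖a‖ := by
    rw [h6, norm_smul, norm_neg]
  have h4' : m ≤ ‖A x (‖u‖⁻¹ • u)‖ := h4
  rw [h6'] at h4'
  have h7 : ‖B x (‖u‖⁻¹ • u)‖ * ‖a‖ ≤ M * (m / (M + 1)) :=
    mul_le_mul h5 ha.le (norm_nonneg _) hM0
  have h8 : M * (m / (M + 1)) < m := by
    rw [← mul_div_assoc, div_lt_iff₀ (by linarith)]
    nlinarith
  linarith

/-- Directions near the vertical one are not tangent, if the projection is an immersion. -/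
theorem exists_nontangent_near (hF : IsSliceDisc F)
    (him : ∀ x ∈ closedBall (0 : Plane) 1, Function.Injective (fderiv ℝ (shadow F) x)) :
    ∃ ε > 0, ∀ v : EuclideanSpace ℝ (Fin 4), v 3 ≠ 0 → ‖dirVec v‖ < ε → Nontangent F v := by
  have hs : ContDiff ℝ ∞ (shadow F) := contDiff_shadow hF
  have ht : ContDiff ℝ ∞ (fun y => F y 3) := (contDiff_euclidean.1 hF.smooth) 3
  obtain ⟨ε, hε, h⟩ := exists_small (hs.continuous_fderiv (by simp))
    (ht.continuous_fderiv (by simp)) him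
  refine ⟨ε, hε, fun v hv3 hva x hx u hu => ?_⟩
  have h1 := h (dirVec v) hva x hx u (fderiv_shadow_of_tangent hF hv3 hu)
  rw [h1, map_zero] at hu
  rw [← hu] at hv3
  exact hv3 rfl

/-- A ribbon knot bounds a slice disc without trisecants in an open set of directions which are not
tangent. -/
theorem exists_open_of_ribbon {K : Set (EuclideanSpace ℝ (Fin 3))} (hK : IsRibbonKnot K) :
    ∃ F, IsSliceDisc F ∧ boundaryKnot F = K ∧
      ∃ ε > 0, ∀ v : EuclideanSpace ℝ (Fin 4), v 3 ≠ 0 → ‖dirVec v‖ < ε →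
        Nontangent F v ∧ trisecants F 0 v = ∅ := by
  obtain ⟨f, hf, rfl⟩ := hK
  obtain ⟨n, α, B, h⟩ := hf.doubleData
  have hA : IsCompact (⋃ i, α i '' Icc (0 : ℝ) 1) :=
    isCompact_iUnion fun i => isCompact_Icc.image (h.arc i).smooth.continuous
  have hmem : ∀ x, (∃ i, ∃ s ∈ Icc (0 : ℝ) 1, x = α i s) → x ∈ ⋃ i, α i '' Icc (0 : ℝ) 1 := by
    rintro x ⟨i, s, hs, rfl⟩
    exact mem_iUnion.2 ⟨i, s, hs, rfl⟩
  obtain ⟨t, -, ht⟩ := exists_push h.smooth h.immersion hA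
    (iUnion_subset fun i => by
      rintro x ⟨s, hs, rfl⟩
      exact h.inside i s hs) h.closed
    (Set.disjoint_left.2 fun x hx hxB => by
      obtain ⟨i, s, hs, rfl⟩ := mem_iUnion.1 hx
      exact h.disjB i s hs hxB)
    (fun x hx y hy hne he => by
      rcases h.double x hx y hy hne he with ⟨h1, h2⟩ | ⟨h1, h2⟩
      · exact Or.inl ⟨hmem x h1, h2⟩
      · exact Or.inr ⟨h1, hmem y h2⟩)
  have hF := ht 1 one_pos
  have hsh : shadow (lift4 f (fun x => 1 * t x)) = f := shadow_lift4 f _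
  have him : ∀ x ∈ closedBall (0 : Plane) 1,
      Function.Injective (fderiv ℝ (shadow (lift4 f (fun x => 1 * t x))) x) := by
    intro x hx
    rw [hsh]
    exact h.immersion x hx
  obtain ⟨ε1, h1, h2⟩ := exists_nontangent_near hF him
  obtain ⟨ε2, h3, h4⟩ := exists_noTriple_near hF him (by
    intro x hx y hy z hz hxy hxz hyz he
    rw [hsh] at he
    exact hyz (Pool.Agent.Lib_MP_752436_nb.double_of_ribbonImmersion hf hx hy hz hxy hxz he.1 he.2))
  refine ⟨lift4 f (fun x => 1 * t x), hF, by rw [boundaryKnot, hsh], min ε1 ε2, lt_min h1 h3,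
    fun v hv3 hv => ⟨h2 v hv3 (lt_of_lt_of_le hv (min_le_left _ _)), ?_⟩⟩
  exact trisecants_eq_empty hv3 0 (h4 (dirVec v) (lt_of_lt_of_le hv (min_le_right _ _)))

/-- Births against trisecants. -/
theorem ae_births (hF : IsSliceDisc F) :
    ∀ᵐ v : EuclideanSpace ℝ (Fin 4), ∃ G, MorseDisc G ∧ boundaryKnot G = boundaryKnot F ∧
      (births G).encard ≤ (trisecants F 0 v).encard ∧
      (Nontangent F v → 2 * (births G).encard ≤ (trisecants F 0 v).encard) := by
  filter_upwards [ae_births_le_trisecants hF, ae_two_births_le_trisecants hF] with v h1 h2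
  by_cases hv : Nontangent F v
  · obtain ⟨G, hG, hGk, hGn⟩ := h2 hv
    refine ⟨G, hG, hGk, le_trans ?_ hGn, fun _ => hGn⟩
    rw [two_mul]
    exact le_self_add
  · obtain ⟨G, hG, hGk, hGn⟩ := h1
    exact ⟨G, hG, hGk, hGn, fun h => absurd h hv⟩

theorem ribbon_tfae_trisecants (K : Set (EuclideanSpace ℝ (Fin 3))) : List.TFAE [
    IsRibbonKnot K,
    ∃ F, IsSliceDisc F ∧ boundaryKnot F = K ∧
      ¬ ∀ᵐ v : EuclideanSpace ℝ (Fin 4), (trisecants F 0 v).Nonempty,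
    ∃ F, IsSliceDisc F ∧ boundaryKnot F = K ∧
      ¬ ∀ᵐ v : EuclideanSpace ℝ (Fin 4), Nontangent F v → 2 ≤ (trisecants F 0 v).encard] := by
  tfae_have 1 ↔ 2 := ribbon_iff_trisecants K
  tfae_have 1 → 3 := by
    intro hK
    obtain ⟨F, hF, hFK, ε, hε, h⟩ := exists_open_of_ribbon hK
    refine ⟨F, hF, hFK, not_ae_of_ball hε fun v hv3 hv hcon => ?_⟩
    obtain ⟨h1, h2⟩ := h v hv3 hv
    have h3 := hcon h1
    rw [h2, encard_empty] at h3
    exact absurd h3 (by norm_num)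
  tfae_have 3 → 1 := by
    rintro ⟨F, hF, rfl, hno⟩
    by_contra hK
    apply hno
    filter_upwards [ae_births hF] with v hv hvt
    obtain ⟨G, hG, hGk, -, hGn⟩ := hv
    refine le_trans ?_ (hGn hvt)
    have hb : births G ≠ ∅ := fun hb => hK (hGk ▸ Pool.Agent.Lib_MP_752436_rc.isRibbonKnot_of_noBirths hG hb)
    have h1 : 1 ≤ (births G).encard :=
      Set.one_le_encard_iff_nonempty.2 (nonempty_iff_ne_empty.2 hb)
    calc (2 : ℕ∞) = 2 * 1 := by norm_num
      _ ≤ 2 * (births G).encard := mul_le_mul_right h1 2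
  tfae_finish

end Pool.Agent.Lib_MP_752436_hb
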