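import Pool.Agent.Lib_MP_752436_hb.Comb
import Pool.Agent.Lib_MP_752436_ch.TrapCycle

/-!
Births and half of the triple points: the graph of the lower curves.

`T` is the relation above, `c e` on `[a e, b e]` its edges (the double curves
cut at the vertices), `z` in `B` (bottom points) has unique `x, y` with `(x, y), (y, z) ∈ T`
(`Strict.below`, `noFour`). A pair `P ∈ T` which is not an interior point of an edge is a junction;
if `P.2 ∈ ball` it is the start of exactly one edge and the end of exactly one edge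
(`out`, `start`, `into`, `hfinish`).
* rel e e' := there are ends P of e, P' of e' (P = c e (a e) or c e (b e)) with P.2 = P'.2 ∈ ball 0 1,
  `∀ z ∈ ball 0 1, (P.2, z) ∉ T`, and (P = P' or P.2 ∈ B).
  V := Quotient (Relation.EqvGen.setoid rel) on κ. I := the subtype of B ∩ ball 0 1.
* adj e e' := they have a common end P with P.2 ∈ ball. NF e := some e' with EqvGen adj e e' has an
  end with lower point off the ball (outer) or in B. NF is invariant under adj and rel.
  O := {⟦e⟧ | e outer or not NF e}.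
* for z in B with x, y: p z := ⟦edge which ends at (x, y)⟧, q z := ⟦edge which starts at (x, y)⟧,
  g z := NF (edge which ends at (x, y)), f z := ⟦edge which starts at (y, z)⟧ (= class of every
  edge with an end P, P.2 = z).
* (H2) C a set of nodes off O, Ct := {e | ⟦e⟧ ∈ C}: all its edges have both ends over the ball.
  J := junctions over the ball. #{P ∈ J | out P ∈ Ct} = #Ct = #{P ∈ J | in P ∈ Ct}, so
  #{P ∈ J | exactly one of in P, out P in Ct} is even. Such a P has `(P.2, z) ∈ T` for some z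
  (otherwise rel), so P = (x_z, y_z), and g z holds (NF): these P correspond to `leaving g p q C`.
* (H) C nonempty, off O, no gate leaves it: K := ⋃ e ∈ Ct, c e '' Icc is closed, T \ K is the union
  of the other closed edges (disjoint: a common point is a junction over the ball, both its edges
  are in Ct or both are not: rel, or a gate, or not NF), lower points of K in the ball (hball).
  hpar gives that {p ∈ K | ∃ x, (x, p.1) ∈ T} has even cardinality; p ↦ p.2 is a bijection from it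
  to `labs f C`. Not empty: e ∈ Ct is NF, Ct is closed under adj, has no outer edge.
* a trap Z: status e := ∀ s ∈ Ioo (a e) (b e), (c e s).2 ∈ tcZ T Z (`tc_near`, `tc_ends`, `tc_all`,
  `tc_inner`, `tc_bottom` in ch/TrapCycle). status is invariant under rel, fails on outer edges.
  Zs := {⟦e⟧ | NF e, status e} is Allowed: if the status of in P and out P differ, P = (x_z, y_z),
  then y_z ∈ tcZ is not in the interior, so z ∈ Z (tc_mem_cases, uniqueness of z), so the edges at
  (y_z, z) have status 1 and f z ∈ Zs. It is nonempty by htrap.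
* `exists_seeds_all` gives S; take the points (c e ((a e + b e) / 2)).2 for one e in every class in S:
  in Z by `tc_inner` if the class is in Zs; never upper points (hE.inner).
-/

open MeasureTheory Metric Set Filter
open scoped ContDiff Topology

namespace Pool.Agent.Lib_MP_752436_hb

open Pool.Agent.Lib_MP_752436_gt Pool.Agent.Lib_MP_752436_tp Pool.Agent.Lib_MP_752436_ch

/-- The bottom points of the triples of points one above the other. -/
def bottoms (T : Set (Plane × Plane)) : Set Plane := {z | ∃ x y, (x, y) ∈ T ∧ (y, z) ∈ T}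

section

variable {T : Set (Plane × Plane)} {κ : Type} {c : κ → ℝ → Plane × Plane} {a b : κ → ℝ}

/-- `P` is an end of the edge `e`. -/
private def IsEnd (c : κ → ℝ → Plane × Plane) (a b : κ → ℝ) (e : κ) (P : Plane × Plane) : Prop :=
  c e (a e) = P ∨ c e (b e) = P

private def Rel (T : Set (Plane × Plane)) (c : κ → ℝ → Plane × Plane) (a b : κ → ℝ)
    (e e' : κ) : Prop :=
  ∃ P P', IsEnd c a b e P ∧ IsEnd c a b e' P' ∧ P.2 ∈ ball (0 : Plane) 1 ∧
    (∀ z ∈ ball (0 : Plane) 1, (P.2, z) ∉ T) ∧ P.2 = P'.2 ∧ (P = P' ∨ P.2 ∈ bottoms T)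

private def Adj (c : κ → ℝ → Plane × Plane) (a b : κ → ℝ) (e e' : κ) : Prop :=
  ∃ P, IsEnd c a b e P ∧ IsEnd c a b e' P ∧ P.2 ∈ ball (0 : Plane) 1

private def Outer (c : κ → ℝ → Plane × Plane) (a b : κ → ℝ) (e : κ) : Prop :=
  ∃ P, IsEnd c a b e P ∧ P.2 ∉ ball (0 : Plane) 1

private def NF (T : Set (Plane × Plane)) (c : κ → ℝ → Plane × Plane) (a b : κ → ℝ) (e : κ) : Prop :=
  ∃ e', Relation.EqvGen (Adj c a b) e e' ∧
    (Outer c a b e' ∨ ∃ P, IsEnd c a b e' P ∧ P.2 ∈ bottoms T)

private def St (T : Set (Plane × Plane)) (Z : Set Plane) (c : κ → ℝ → Plane × Plane) (a b : κ → ℝ)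
    (e : κ) : Prop :=
  ∀ s ∈ Ioo (a e) (b e), (c e s).2 ∈ tcZ T Z

private theorem uniq_top (hS : Strict T) {x y z x' y' : Plane} (h1 : (x, y) ∈ T)
    (h2 : (y, z) ∈ T) (h3 : (x', y') ∈ T) (h4 : (y', z) ∈ T) : x = x' ∧ y = y' := by
  have hy : y = y' := by
    by_contra hne
    rcases hS.below _ _ _ h2 h4 hne with h | h
    · exact hS.noFour _ _ _ _ h1 h h4
    · exact hS.noFour _ _ _ _ h3 h h2
  subst hy
  refine ⟨?_, rfl⟩
  by_contra hne
  rcases hS.below _ _ _ h1 h3 hne with h | h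
  · exact hS.noFour _ _ _ _ h h3 h2
  · exact hS.noFour _ _ _ _ h h1 h2

private theorem uniq_bot (hS : Strict T) {x y z z' : Plane} (h1 : (x, y) ∈ T) (h2 : (y, z) ∈ T)
    (h3 : (y, z') ∈ T) : z = z' := by
  by_contra hne
  rcases hS.above _ _ _ h2 h3 hne with h | h
  · exact hS.noFour _ _ _ _ h1 h2 h
  · exact hS.noFour _ _ _ _ h1 h3 h

private theorem end_mem (hE : Edges c a b T) {e : κ} {P : Plane × Plane}
    (h : IsEnd c a b e P) : P ∈ T := by
  rcases h with rfl | rfl
  · exact hE.mem e _ ⟨le_rfl, (hE.lt e).le⟩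
  · exact hE.mem e _ ⟨(hE.lt e).le, le_rfl⟩

private theorem end_jct (hE : Edges c a b T) {e : κ} {P : Plane × Plane}
    (h : IsEnd c a b e P) : ∀ e', ∀ t ∈ Ioo (a e') (b e'), c e' t ≠ P := by
  intro e' t ht he
  rcases h with rfl | rfl
  · obtain ⟨rfl, rfl⟩ := hE.once e' e t ht (a e) ⟨le_rfl, (hE.lt e).le⟩ he
    exact lt_irrefl _ ht.1
  · obtain ⟨rfl, rfl⟩ := hE.once e' e t ht (b e) ⟨(hE.lt e).le, le_rfl⟩ he
    exact lt_irrefl _ ht.2

private theorem vertex_jct (hE : Edges c a b T) {P : Plane × Plane} (hP : P ∈ vertices T) :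
    ∀ e', ∀ t ∈ Ioo (a e') (b e'), c e' t ≠ P :=
  fun e t ht he => hE.inner e t ht (he ▸ hP)

private theorem icc_end {e : κ} {t : ℝ} (ht : t ∈ Icc (a e) (b e)) (hn : t ∉ Ioo (a e) (b e)) :
    IsEnd c a b e (c e t) := by
  rcases ht.1.eq_or_lt with h | h
  · left
    rw [h]
  · rcases ht.2.eq_or_lt with h' | h'
    · right
      rw [h']
    · exact absurd ⟨h, h'⟩ hn

private theorem edge_cases (hE : Edges c a b T)
    (hfinish : ∀ e e', c e (b e) = c e' (b e') → e = e') {P : Plane × Plane} {e e1 e2 : κ}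
    (h1 : c e1 (b e1) = P) (h2 : c e2 (a e2) = P) (h : IsEnd c a b e P) : e = e1 ∨ e = e2 := by
  rcases h with h | h
  · exact Or.inr (hE.start _ _ (h.trans h2.symm))
  · exact Or.inl (hfinish _ _ (h.trans h1.symm))

private theorem nf_adj {e e' : κ} (h : Relation.EqvGen (Adj c a b) e e')
    (hn : NF T c a b e') : NF T c a b e := by
  obtain ⟨e'', h1, h2⟩ := hn
  exact ⟨e'', Relation.EqvGen.trans _ _ _ h h1, h2⟩

private theorem nf_rel {e e' : κ} (h : Rel T c a b e e') : NF T c a b e ↔ NF T c a b e' := by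
  obtain ⟨P, P', h1, h2, h3, _, h4, h5⟩ := h
  rcases h5 with rfl | h5
  · have h6 : Relation.EqvGen (Adj c a b) e e' := Relation.EqvGen.rel _ _ ⟨P, h1, h2, h3⟩
    exact ⟨fun h => nf_adj (Relation.EqvGen.symm _ _ h6) h, fun h => nf_adj h6 h⟩
  · have h7 : P'.2 ∈ bottoms T := by
      rw [← h4]
      exact h5
    exact ⟨fun _ => ⟨e', Relation.EqvGen.refl _, Or.inr ⟨P', h2, h7⟩⟩,
      fun _ => ⟨e, Relation.EqvGen.refl _, Or.inr ⟨P, h1, h5⟩⟩⟩

private theorem nf_eqv {e e' : κ} (h : Relation.EqvGen (Rel T c a b) e e') :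
    NF T c a b e ↔ NF T c a b e' := by
  induction h with
  | rel _ _ h => exact nf_rel h
  | refl _ => exact Iff.rfl
  | symm _ _ _ ih => exact ih.symm
  | trans _ _ _ _ _ ih1 ih2 => exact ih1.trans ih2

private theorem rel_symm {e e' : κ} (h : Rel T c a b e e') : Rel T c a b e' e := by
  obtain ⟨P, P', h1, h2, h3, h4, h5, h6⟩ := h
  refine ⟨P', P, h2, h1, ?_, ?_, h5.symm, ?_⟩
  · rw [← h5]
    exact h3
  · rw [← h5]
    exact h4
  · rcases h6 with h6 | h6
    · exact Or.inl h6.symm
    · right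
      rw [← h5]
      exact h6

section trap

variable {Z : Set Plane}

private theorem st_end (hS : Strict T) (hE : Edges c a b T)
    (hZ : IsTrapOf (fun x y => (x, y) ∈ T) Z) {e : κ} {P : Plane × Plane}
    (h : St T Z c a b e) (hP : IsEnd c a b e P) : P.2 ∈ tcZ T Z := by
  have h1 := tc_ends hS hE hZ h
  rcases hP with rfl | rfl
  · exact h1 _ ⟨le_rfl, (hE.lt e).le⟩
  · exact h1 _ ⟨(hE.lt e).le, le_rfl⟩

private theorem st_near (hS : Strict T) (hE : Edges c a b T)
    (hZ : IsTrapOf (fun x y => (x, y) ∈ T) Z) {e : κ} {P : Plane × Plane}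
    (hP : IsEnd c a b e P) (h : P.2 ∈ interior (tcZ T Z)) : St T Z c a b e := by
  rcases hP with rfl | rfl
  · exact tc_near hS hE hZ ⟨le_rfl, (hE.lt e).le⟩ h
  · exact tc_near hS hE hZ ⟨(hE.lt e).le, le_rfl⟩ h

private theorem st_rel (hS : Strict T) (hE : Edges c a b T)
    (hZ : IsTrapOf (fun x y => (x, y) ∈ T) Z) {e e' : κ} (h : Rel T c a b e e')
    (hs : St T Z c a b e) : St T Z c a b e' := by
  obtain ⟨P, P', h1, h2, h3, h4, h5, -⟩ := h
  have h6 : P.2 ∈ interior (tcZ T Z) := by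
    rcases tc_mem_cases hS hZ (st_end hS hE hZ hs h1) with h | ⟨w, hw, h⟩
    · exact h
    · exact absurd h (h4 w (hZ.sub hw))
  refine st_near hS hE hZ h2 ?_
  rw [← h5]
  exact h6

private theorem st_eqv (hS : Strict T) (hE : Edges c a b T)
    (hZ : IsTrapOf (fun x y => (x, y) ∈ T) Z) {e e' : κ}
    (h : Relation.EqvGen (Rel T c a b) e e') : St T Z c a b e ↔ St T Z c a b e' := by
  induction h with
  | rel _ _ h => exact ⟨st_rel hS hE hZ h, st_rel hS hE hZ (rel_symm h)⟩
  | refl _ => exact Iff.rfl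
  | symm _ _ _ ih => exact ih.symm
  | trans _ _ _ _ _ ih1 ih2 => exact ih1.trans ih2

private theorem st_inner (hS : Strict T) (hE : Edges c a b T)
    (hZ : IsTrapOf (fun x y => (x, y) ∈ T) Z) {e : κ} (h : St T Z c a b e) :
    (c e ((a e + b e) / 2)).2 ∈ Z := by
  have hlt := hE.lt e
  have ht : (a e + b e) / 2 ∈ Ioo (a e) (b e) := ⟨by linarith, by linarith⟩
  exact (tc_inner hS hE hZ ht (h _ ht)).2

end trap

open Classical in
private theorem parity_core [Fintype κ] (hE : Edges c a b T)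
    (hfinish : ∀ e e', c e (b e) = c e' (b e') → e = e') (Ct : κ → Prop) (φ : κ → κ)
    (hφ : ∀ e, (c e (a e)).2 ∈ ball (0 : Plane) 1 → c (φ e) (b (φ e)) = c e (a e))
    (hC : ∀ e, Ct e → (c e (a e)).2 ∈ ball (0 : Plane) 1 ∧ (c e (b e)).2 ∈ ball (0 : Plane) 1) :
    Even (Finset.univ.filter fun e => (c e (a e)).2 ∈ ball (0 : Plane) 1 ∧
      ¬ (Ct e ↔ Ct (φ e))).card := by
  set A : Finset κ := Finset.univ.filter fun e => Ct e with hA
  set A' : Finset κ := Finset.univ.filter fun e =>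
    (c e (a e)).2 ∈ ball (0 : Plane) 1 ∧ Ct (φ e) with hA'
  have hcard : A'.card = A.card := by
    refine Finset.card_bij (fun e _ => φ e) ?_ ?_ ?_
    · intro e he
      rw [hA', Finset.mem_filter] at he
      rw [hA, Finset.mem_filter]
      exact ⟨Finset.mem_univ _, he.2.2⟩
    · intro e he e' he' h
      rw [hA', Finset.mem_filter] at he he'
      have h1 := hφ e he.2.1
      have h2 := hφ e' he'.2.1
      rw [h] at h1
      exact hE.start _ _ (h1.symm.trans h2)
    · intro e' he'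
      rw [hA, Finset.mem_filter] at he'
      have hend : IsEnd c a b e' (c e' (b e')) := Or.inr rfl
      obtain ⟨e, he⟩ := hE.out _ (end_mem hE hend) (hC e' he'.2).2 (end_jct hE hend)
      have hb : (c e (a e)).2 ∈ ball (0 : Plane) 1 := by
        rw [he]
        exact (hC e' he'.2).2
      have h1 : φ e = e' := hfinish _ _ ((hφ e hb).trans he)
      refine ⟨e, ?_, h1⟩
      rw [hA', Finset.mem_filter, h1]
      exact ⟨Finset.mem_univ _, hb, he'.2⟩
  have hset : (Finset.univ.filter fun e => (c e (a e)).2 ∈ ball (0 : Plane) 1 ∧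
      ¬ (Ct e ↔ Ct (φ e))) = (A \ A') ∪ (A' \ A) := by
    ext e
    rw [Finset.mem_union, Finset.mem_sdiff, Finset.mem_sdiff, hA, hA', Finset.mem_filter,
      Finset.mem_filter, Finset.mem_filter]
    constructor
    · rintro ⟨_, h1, h2⟩
      by_cases h3 : Ct e
      · left
        refine ⟨⟨Finset.mem_univ _, h3⟩, fun h4 => h2 ⟨fun _ => h4.2.2, fun _ => h3⟩⟩
      · right
        refine ⟨⟨Finset.mem_univ _, h1, ?_⟩, fun h4 => h3 h4.2⟩
        by_contra h4
        exact h2 ⟨fun h => absurd h h3, fun h => absurd h h4⟩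
    · rintro (⟨⟨_, h1⟩, h2⟩ | ⟨⟨_, h1, h2⟩, h3⟩)
      · refine ⟨Finset.mem_univ _, (hC e h1).1, fun h => h2 ⟨Finset.mem_univ _, (hC e h1).1, h.1 h1⟩⟩
      · exact ⟨Finset.mem_univ _, h1, fun h => h3 ⟨Finset.mem_univ _, h.2 h2⟩⟩
  rw [hset, Finset.card_union_of_disjoint, Finset.card_sdiff_comm hcard]
  · exact ⟨_, rfl⟩
  · rw [Finset.disjoint_left]
    intro e h1 h2
    exact (Finset.mem_sdiff.1 h2).2 (Finset.mem_sdiff.1 h1).1

private theorem closed_part [Fintype κ] (hE : Edges c a b T) (S : Set κ) :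
    IsClosed (⋃ e ∈ S, c e '' Icc (a e) (b e)) :=
  (Set.toFinite S).isClosed_biUnion fun e _ =>
    (isCompact_Icc.image (hE.smooth e).continuous).isClosed

end

theorem exists_half {T : Set (Plane × Plane)} (hS : Strict T) {κ : Type} [Fintype κ]
    {c : κ → ℝ → Plane × Plane} {a b : κ → ℝ} (hE : Edges c a b T)
    (hfinish : ∀ e e', c e (b e) = c e' (b e') → e = e')
    (hball : ∀ e, ∀ t ∈ Ioo (a e) (b e), (c e t).2 ∈ ball (0 : Plane) 1)
    (hfin : (bottoms T).Finite)
    (hpar : ∀ K ⊆ T, IsClosed K → IsClosed (T \ K) → (∀ p ∈ K, p.2 ∈ ball (0 : Plane) 1) →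
      Even {p | p ∈ K ∧ ∃ x, (x, p.1) ∈ T}.ncard)
    (htrap : ∀ Z, IsTrapOf (fun x y => (x, y) ∈ T) Z → ∃ z ∈ Z, z ∈ bottoms T) :
    ∃ P : Set Plane, 2 * P.encard ≤ (bottoms T).encard ∧ (∀ p ∈ P, ∀ y, (p, y) ∉ T) ∧
      ∀ Z, IsTrapOf (fun x y => (x, y) ∈ T) Z → (Z ∩ P).Nonempty := by
  classical
  let s : Setoid κ := Relation.EqvGen.setoid (Rel T c a b)
  have hmk : ∀ e e' : κ, Quotient.mk s e = Quotient.mk s e' ↔
      Relation.EqvGen (Rel T c a b) e e' := fun e e' => Quotient.eq (r := s)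
  have hrel : ∀ e e' : κ, Rel T c a b e e' → Quotient.mk s e = Quotient.mk s e' := fun e e' h =>
    (hmk e e').2 (Relation.EqvGen.rel _ _ h)
  let : Fintype (Quotient s) := Fintype.ofFinite _
  -- the bottom points over the ball
  have hBfin : (bottoms T ∩ ball (0 : Plane) 1).Finite := hfin.subset inter_subset_left
  let : Fintype ↥(bottoms T ∩ ball (0 : Plane) 1) := hBfin.fintype
  have hxy : ∀ z : ↥(bottoms T ∩ ball (0 : Plane) 1), ∃ x y, (x, y) ∈ T ∧ (y, z.1) ∈ T :=
    fun z => z.2.1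
  choose X Y hXY using hxy
  have hX : ∀ z, (X z, Y z) ∈ T := fun z => (hXY z).1
  have hY : ∀ z, (Y z, z.1) ∈ T := fun z => (hXY z).2
  have hYb : ∀ z, Y z ∈ ball (0 : Plane) 1 := fun z => hS.fstMem (Y z, z.1) (hY z)
  have hGv : ∀ z, (X z, Y z) ∈ vertices T := fun z => ⟨hX z, z.1, Or.inl (hY z)⟩
  have hFv : ∀ z, (Y z, z.1) ∈ vertices T := fun z => ⟨hY z, X z, Or.inr (Or.inl (hX z))⟩
  have hin : ∀ z, ∃ e, c e (b e) = (X z, Y z) := fun z =>
    hE.into _ (hX z) (hYb z) (vertex_jct hE (hGv z))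
  have hout : ∀ z, ∃ e, c e (a e) = (X z, Y z) := fun z =>
    hE.out _ (hX z) (hYb z) (vertex_jct hE (hGv z))
  have hef : ∀ z, ∃ e, c e (a e) = (Y z, z.1) := fun z =>
    hE.out _ (hY z) z.2.2 (vertex_jct hE (hFv z))
  choose ein hein using hin
  choose eout heout using hout
  choose ef hef using hef
  -- the gate of a junction
  have hgate_of : ∀ P ∈ T, ∀ z ∈ ball (0 : Plane) 1, (P.2, z) ∈ T →
      ∃ w : ↥(bottoms T ∩ ball (0 : Plane) 1), w.1 = z ∧ P = (X w, Y w) := by
    intro P hP z hz h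
    have hP' : (P.1, P.2) ∈ T := hP
    refine ⟨⟨z, ⟨P.1, P.2, hP', h⟩, hz⟩, rfl, ?_⟩
    have h1 := uniq_top hS hP' h (hX ⟨z, ⟨P.1, P.2, hP', h⟩, hz⟩) (hY ⟨z, ⟨P.1, P.2, hP', h⟩, hz⟩)
    exact Prod.ext h1.1 h1.2
  -- the class of the edges at a bottom point
  have hfcl : ∀ (w : ↥(bottoms T ∩ ball (0 : Plane) 1)) (e : κ) (P : Plane × Plane),
      IsEnd c a b e P → P.2 = w.1 → Quotient.mk s e = Quotient.mk s (ef w) := by
    intro w e P h1 h2
    refine hrel _ _ ⟨P, (Y w, w.1), h1, Or.inl (hef w), ?_, ?_, h2, Or.inr ?_⟩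
    · rw [h2]
      exact w.2.2
    · intro z _ h3
      rw [h2] at h3
      exact hS.noFour _ _ _ _ (hX w) (hY w) h3
    · rw [h2]
      exact w.2.1
  set O : Set (Quotient s) := {v | ∃ e, Quotient.mk s e = v ∧ (Outer c a b e ∨ ¬ NF T c a b e)}
    with hO
  set g : ↥(bottoms T ∩ ball (0 : Plane) 1) → Prop := fun z => NF T c a b (ein z) with hg
  set p : ↥(bottoms T ∩ ball (0 : Plane) 1) → Quotient s := fun z => Quotient.mk s (ein z) with hp
  set q : ↥(bottoms T ∩ ball (0 : Plane) 1) → Quotient s := fun z => Quotient.mk s (eout z) with hq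
  set f : ↥(bottoms T ∩ ball (0 : Plane) 1) → Quotient s := fun z => Quotient.mk s (ef z) with hf
  -- edges of a set of nodes off `O`
  have hoff : ∀ C : Set (Quotient s), (∀ v ∈ C, v ∉ O) → ∀ e, Quotient.mk s e ∈ C →
      ¬ Outer c a b e ∧ NF T c a b e := by
    intro C hC e he
    have h1 := hC _ he
    constructor
    · intro h2
      exact h1 ⟨e, rfl, Or.inl h2⟩
    · by_contra h2
      exact h1 ⟨e, rfl, Or.inr h2⟩
  have hoffb : ∀ C : Set (Quotient s), (∀ v ∈ C, v ∉ O) → ∀ e, Quotient.mk s e ∈ C →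
      ∀ P, IsEnd c a b e P → P.2 ∈ ball (0 : Plane) 1 := by
    intro C hC e he P hP
    by_contra h
    exact (hoff C hC e he).1 ⟨P, hP, h⟩
  have hinout : ∀ z, Relation.EqvGen (Adj c a b) (ein z) (eout z) := fun z =>
    Relation.EqvGen.rel _ _ ⟨(X z, Y z), Or.inr (hein z), Or.inl (heout z), hYb z⟩
  -- parity of the gates
  have H2 : ∀ C : Set (Quotient s), (∀ v ∈ C, v ∉ O) → Even (deg g p q C) := by
    intro C hC
    have hφ : ∀ e, ∃ e', (c e (a e)).2 ∈ ball (0 : Plane) 1 → c e' (b e') = c e (a e) := by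
      intro e
      by_cases h : (c e (a e)).2 ∈ ball (0 : Plane) 1
      · have hend : IsEnd c a b e (c e (a e)) := Or.inl rfl
        obtain ⟨e', he'⟩ := hE.into _ (end_mem hE hend) h (end_jct hE hend)
        exact ⟨e', fun _ => he'⟩
      · exact ⟨e, fun h' => absurd h' h⟩
    choose φ hφ using hφ
    have key := parity_core hE hfinish (fun e => Quotient.mk s e ∈ C) φ hφ
      (fun e he => ⟨hoffb C hC e he _ (Or.inl rfl), hoffb C hC e he _ (Or.inr rfl)⟩)
    have hcard : (leaving g p q C).card = (Finset.univ.filter fun e =>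
        (c e (a e)).2 ∈ ball (0 : Plane) 1 ∧
        ¬ (Quotient.mk s e ∈ C ↔ Quotient.mk s (φ e) ∈ C)).card := by
      refine Finset.card_bij (fun z _ => eout z) ?_ ?_ ?_
      · intro z hz
        obtain ⟨h1, h2⟩ := mem_leaving.1 hz
        have hb : (c (eout z) (a (eout z))).2 ∈ ball (0 : Plane) 1 := by
          rw [heout z]
          exact hYb z
        have h3 : φ (eout z) = ein z :=
          hfinish _ _ ((hφ _ hb).trans ((heout z).trans (hein z).symm))
        rw [Finset.mem_filter]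
        refine ⟨Finset.mem_univ _, hb, ?_⟩
        rw [h3]
        exact fun h => h2 h.symm
      · intro z _ z' _ h
        have h1 : (X z, Y z) = (X z', Y z') := by
          rw [← heout z, ← heout z', h]
        have h2 : Y z = Y z' := congrArg Prod.snd h1
        apply Subtype.ext
        refine uniq_bot hS (hX z) (hY z) ?_
        rw [h2]
        exact hY z'
      · intro e he
        rw [Finset.mem_filter] at he
        obtain ⟨_, hb, h1⟩ := he
        have hend : IsEnd c a b e (c e (a e)) := Or.inl rfl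
        have hz : ∃ z ∈ ball (0 : Plane) 1, ((c e (a e)).2, z) ∈ T := by
          by_contra hcon
          push Not at hcon
          have h2 : Quotient.mk s e = Quotient.mk s (φ e) :=
            hrel _ _ ⟨c e (a e), c e (a e), hend, Or.inr (hφ e hb), hb, hcon, rfl, Or.inl rfl⟩
          apply h1
          rw [h2]
        obtain ⟨z, hzb, hz⟩ := hz
        obtain ⟨w, _, hw⟩ := hgate_of _ (end_mem hE hend) z hzb hz
        have h2 : e = eout w := hE.start _ _ (hw.trans (heout w).symm)
        have h3 : φ e = ein w := hfinish _ _ ((hφ e hb).trans (hw.trans (hein w).symm))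
        refine ⟨w, mem_leaving.2 ⟨?_, ?_⟩, h2.symm⟩
        · by_cases h4 : Quotient.mk s e ∈ C
          · have h5 := (hoff C hC e h4).2
            rw [h2] at h5
            exact nf_adj (hinout w) h5
          · have h5 : Quotient.mk s (φ e) ∈ C := by
              by_contra h6
              exact h1 ⟨fun h => absurd h h4, fun h => absurd h h6⟩
            have h6 := (hoff C hC _ h5).2
            rw [h3] at h6
            exact h6
        · intro h
          apply h1
          rw [h2, ← h2, h3, h2]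
          exact h.symm
    unfold deg
    rw [hcard]
    exact key
  -- the sets which no gate leaves
  have H : ∀ C : Set (Quotient s), C.Nonempty → (∀ v ∈ C, v ∉ O) →
      (∀ i, g i → (p i ∈ C ↔ q i ∈ C)) → Even (lab f C) ∧ 0 < lab f C := by
    intro C hne hC hgate
    have hadj : ∀ e e', Quotient.mk s e ∈ C → Adj c a b e e' → Quotient.mk s e' ∈ C := by
      rintro e e' he ⟨P, h1, h2, h3⟩
      by_cases hz : ∀ z ∈ ball (0 : Plane) 1, (P.2, z) ∉ T
      · rw [← hrel e e' ⟨P, P, h1, h2, h3, hz, rfl, Or.inl rfl⟩]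
        exact he
      · push Not at hz
        obtain ⟨z, hzb, hz⟩ := hz
        obtain ⟨w, _, hw⟩ := hgate_of _ (end_mem hE h1) z hzb hz
        have h4 := edge_cases hE hfinish ((hein w).trans hw.symm) ((heout w).trans hw.symm) h1
        have h5 := edge_cases hE hfinish ((hein w).trans hw.symm) ((heout w).trans hw.symm) h2
        have hn := (hoff C hC e he).2
        have hgw : g w := by
          rcases h4 with rfl | rfl
          · exact hn
          · exact nf_adj (hinout w) hn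
        have h6 := hgate w hgw
        rcases h4 with rfl | rfl <;> rcases h5 with rfl | rfl
        · exact he
        · exact h6.1 he
        · exact h6.2 he
        · exact he
    have hadjg : ∀ e e', Relation.EqvGen (Adj c a b) e e' →
        (Quotient.mk s e ∈ C ↔ Quotient.mk s e' ∈ C) := by
      intro e e' h
      induction h with
      | rel x y h =>
        refine ⟨fun h' => hadj _ _ h' h, fun h' => hadj _ _ h' ?_⟩
        obtain ⟨P, h1, h2, h3⟩ := h
        exact ⟨P, h2, h1, h3⟩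
      | refl _ => exact Iff.rfl
      | symm _ _ _ ih => exact ih.symm
      | trans _ _ _ _ _ ih1 ih2 => exact ih1.trans ih2
    -- the set of the edges
    set S : Set κ := {e | Quotient.mk s e ∈ C} with hSdef
    set K : Set (Plane × Plane) := ⋃ e ∈ S, c e '' Icc (a e) (b e) with hK
    have hKmem : ∀ P, P ∈ K ↔ ∃ e, Quotient.mk s e ∈ C ∧ ∃ t ∈ Icc (a e) (b e), c e t = P := by
      intro P
      rw [hK]
      simp only [mem_iUnion, mem_image, exists_prop]
      exact Iff.rfl
    have hKT : K ⊆ T := by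
      intro P hP
      obtain ⟨e, _, t, ht, rfl⟩ := (hKmem P).1 hP
      exact hE.mem e t ht
    have hsep : ∀ e e', Quotient.mk s e ∈ C → Quotient.mk s e' ∉ C → ∀ t ∈ Icc (a e) (b e),
        ∀ t' ∈ Icc (a e') (b e'), c e t ≠ c e' t' := by
      intro e e' he he' t ht t' ht' h
      by_cases h1 : t ∈ Ioo (a e) (b e)
      · obtain ⟨rfl, _⟩ := hE.once e e' t h1 t' ht' h
        exact he' he
      by_cases h2 : t' ∈ Ioo (a e') (b e')
      · obtain ⟨rfl, _⟩ := hE.once e' e t' h2 t ht h.symm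
        exact he' he
      have h3 : IsEnd c a b e (c e t) := icc_end ht h1
      have h4 : IsEnd c a b e' (c e t) := by
        rw [h]
        exact icc_end ht' h2
      exact he' (hadj e e' he ⟨c e t, h3, h4, hoffb C hC e he _ h3⟩)
    have hKc : T \ K = ⋃ e ∈ Sᶜ, c e '' Icc (a e) (b e) := by
      ext P
      simp only [Set.mem_sdiff, mem_iUnion, mem_image, exists_prop]
      constructor
      · rintro ⟨h1, h2⟩
        obtain ⟨e, t, ht, h3⟩ := hE.cover P h1
        refine ⟨e, fun he => h2 ((hKmem P).2 ⟨e, he, t, ht, h3⟩), t, ht, h3⟩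
      · rintro ⟨e', he', t', ht', rfl⟩
        refine ⟨hE.mem e' t' ht', fun h => ?_⟩
        obtain ⟨e, he, t, ht, h3⟩ := (hKmem _).1 h
        exact hsep e e' he he' t ht t' ht' h3
    have hKball : ∀ P ∈ K, P.2 ∈ ball (0 : Plane) 1 := by
      intro P hP
      obtain ⟨e, he, t, ht, rfl⟩ := (hKmem P).1 hP
      by_cases h1 : t ∈ Ioo (a e) (b e)
      · exact hball e t h1
      · exact hoffb C hC e he _ (icc_end ht h1)
    have hpr := hpar K hKT (closed_part hE S) (by rw [hKc]; exact closed_part hE Sᶜ) hKball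
    have hlab : lab f C = {P | P ∈ K ∧ ∃ x, (x, P.1) ∈ T}.ncard := by
      unfold lab
      rw [← Set.ncard_coe_finset]
      refine Set.ncard_congr (fun z _ => (Y z, z.1)) ?_ ?_ ?_
      · intro z hz
        have hz' : f z ∈ C := mem_labs.1 (Finset.mem_coe.1 hz)
        refine ⟨(hKmem _).2 ⟨ef z, hz', a (ef z), ⟨le_rfl, (hE.lt _).le⟩, hef z⟩, X z, hX z⟩
      · intro z z' _ _ h
        exact Subtype.ext (congrArg Prod.snd h)
      · rintro P ⟨hP, x, hx⟩
        have hPT : (P.1, P.2) ∈ T := hKT hP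
        have hPb := hKball P hP
        have hbot : P.2 ∈ bottoms T := ⟨x, P.1, hx, hPT⟩
        have huq := uniq_top hS hx hPT (hX ⟨P.2, hbot, hPb⟩) (hY ⟨P.2, hbot, hPb⟩)
        refine ⟨⟨P.2, hbot, hPb⟩, ?_, Prod.ext huq.2.symm rfl⟩
        obtain ⟨e, he, t, ht, h1⟩ := (hKmem P).1 hP
        have hv : P ∈ vertices T := ⟨hPT, x, Or.inr (Or.inl hx)⟩
        have hni : t ∉ Ioo (a e) (b e) := fun h2 => vertex_jct hE hv e t h2 h1
        have h3 : IsEnd c a b e P := by
          rw [← h1]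
          exact icc_end ht hni
        have h4 := hfcl ⟨P.2, hbot, hPb⟩ e P h3 rfl
        refine Finset.mem_coe.2 (mem_labs.2 ?_)
        show Quotient.mk s (ef ⟨P.2, hbot, hPb⟩) ∈ C
        rw [← h4]
        exact he
    refine ⟨by rw [hlab]; exact hpr, ?_⟩
    obtain ⟨v, hv⟩ := hne
    obtain ⟨e, rfl⟩ := Quotient.exists_rep v
    have he : Quotient.mk s e ∈ C := hv
    obtain ⟨e', h1, h2⟩ := (hoff C hC e he).2
    have he' : Quotient.mk s e' ∈ C := (hadjg e e' h1).1 he
    rcases h2 with h2 | ⟨P, h2, h3⟩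
    · exact absurd h2 (hoff C hC e' he').1
    · have hPb := hoffb C hC e' he' P h2
      refine Finset.card_pos.2 ⟨⟨P.2, h3, hPb⟩, mem_labs.2 ?_⟩
      show Quotient.mk s (ef ⟨P.2, h3, hPb⟩) ∈ C
      rw [← hfcl ⟨P.2, h3, hPb⟩ e' P h2 rfl]
      exact he'
  obtain ⟨Sd, hSd1, hSd2⟩ := exists_seeds_all H2 H
  -- the point of a class
  set pt : Quotient s → Plane := fun v => (c v.out ((a v.out + b v.out) / 2)).2 with hpt
  refine ⟨(Sd.image pt : Finset Plane), ?_, ?_, ?_⟩
  · have h1 : ((Sd.image pt : Finset Plane) : Set Plane).encard = ((Sd.image pt).card : ℕ∞) :=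
      Set.encard_coe_eq_coe_finsetCard _
    have h2 : (Fintype.card ↥(bottoms T ∩ ball (0 : Plane) 1) : ℕ∞) ≤ (bottoms T).encard := by
      have h3 : (bottoms T ∩ ball (0 : Plane) 1).encard ≤ (bottoms T).encard :=
        Set.encard_le_encard inter_subset_left
      refine le_trans (le_of_eq ?_) h3
      rw [Set.encard_eq_coe_toFinset_card, Set.toFinset_card]
    refine le_trans ?_ h2
    rw [h1]
    have h4 : 2 * (Sd.image pt).card ≤ Fintype.card ↥(bottoms T ∩ ball (0 : Plane) 1) :=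
      le_trans (Nat.mul_le_mul_left _ Finset.card_image_le) hSd1
    exact_mod_cast h4
  · intro x hx y hxy
    obtain ⟨v, _, rfl⟩ := Finset.mem_image.1 (Finset.mem_coe.1 hx)
    have hlt := hE.lt v.out
    have ht : (a v.out + b v.out) / 2 ∈ Ioo (a v.out) (b v.out) := ⟨by linarith, by linarith⟩
    exact hE.inner _ _ ht ⟨hE.mem _ _ (Ioo_subset_Icc_self ht), y, Or.inl hxy⟩
  · intro Z hZ
    set Zs : Set (Quotient s) := {v | ∃ e, Quotient.mk s e = v ∧ NF T c a b e ∧ St T Z c a b e}
      with hZs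
    have hZsmem : ∀ e, Quotient.mk s e ∈ Zs ↔ NF T c a b e ∧ St T Z c a b e := by
      intro e
      constructor
      · rintro ⟨e', h1, h2, h3⟩
        have h4 := (hmk _ _).1 h1
        exact ⟨(nf_eqv h4).1 h2, (st_eqv hS hE hZ h4).1 h3⟩
      · rintro ⟨h1, h2⟩
        exact ⟨e, rfl, h1, h2⟩
    have hfz : ∀ z : ↥(bottoms T ∩ ball (0 : Plane) 1), z.1 ∈ Z → f z ∈ Zs := by
      intro z hz
      refine (hZsmem _).2 ⟨⟨ef z, Relation.EqvGen.refl _, Or.inr ⟨(Y z, z.1), Or.inl (hef z),
        z.2.1⟩⟩, ?_⟩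
      exact st_near hS hE hZ (Or.inl (hef z)) (tc_bottom hS hZ (hX z) (hY z) (Or.inl hz))
    have hal : Allowed O g p q f Zs := by
      refine ⟨?_, ?_⟩
      · rintro v hv ⟨e, rfl, h1⟩
        obtain ⟨h2, h3⟩ := (hZsmem e).1 hv
        rcases h1 with ⟨P, h4, h5⟩ | h1
        · exact h5 (tc_sub hS hZ (st_end hS hE hZ h3 h4))
        · exact h1 h2
      · intro z hgz hfz'
        have hni : z.1 ∉ Z := fun h => hfz' (hfz z h)
        have hno : NF T c a b (eout z) := nf_adj (Relation.EqvGen.symm _ _ (hinout z)) hgz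
        have hi1 : IsEnd c a b (ein z) (X z, Y z) := Or.inr (hein z)
        have hi2 : IsEnd c a b (eout z) (X z, Y z) := Or.inl (heout z)
        have hint : Y z ∈ tcZ T Z → Y z ∈ interior (tcZ T Z) := by
          intro h
          rcases tc_mem_cases hS hZ h with h | ⟨w, hw, h⟩
          · exact h
          · exfalso
            have h1 : w = z.1 := uniq_bot hS (hX z) h (hY z)
            rw [h1] at hw
            exact hni hw
        constructor
        · intro h
          obtain ⟨_, h2⟩ := (hZsmem _).1 h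
          exact (hZsmem _).2 ⟨hno, st_near hS hE hZ hi2 (hint (st_end hS hE hZ h2 hi1))⟩
        · intro h
          obtain ⟨_, h2⟩ := (hZsmem _).1 h
          exact (hZsmem _).2 ⟨hgz, st_near hS hE hZ hi1 (hint (st_end hS hE hZ h2 hi2))⟩
    obtain ⟨z, hz, hzb⟩ := htrap Z hZ
    obtain ⟨v, hv, hvZ⟩ := hSd2 Zs hal ⟨f ⟨z, hzb, hZ.sub hz⟩, hfz ⟨z, hzb, hZ.sub hz⟩ hz⟩
    refine ⟨pt v, ?_, Finset.mem_coe.2 (Finset.mem_image_of_mem _ hv)⟩
    have h1 : Quotient.mk s v.out ∈ Zs := by
      have h2 : Quotient.mk s v.out = v := Quotient.out_eq v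
      rw [h2]
      exact hvZ
    exact st_inner hS hE hZ ((hZsmem _).1 h1).2

end Pool.Agent.Lib_MP_752436_hb
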