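import Pool.Agent.Lib_MP_752436_tp.BoxJump

/-!
Births and half of the triple points: the jump of the winding number of a closed curve is one.
-/

open Metric Set Filter
open scoped ContDiff Topology

namespace Pool.Agent.Lib_MP_752436_hb

open Pool.Agent.Lib_MP_752436_gt Pool.Agent.Lib_MP_752436_tp

theorem jumpC_tendsto {ζ ζ' : ℝ → ℂ} (hd : ∀ t, HasDerivAt ζ (ζ' t) t) (hc : Continuous ζ')
    {L : ℝ} (hL : 0 < L) (hper : ∀ t, ζ (t + L) = ζ t) (hper' : ∀ t, ζ' (t + L) = ζ' t)
    {t0 : ℝ} (h0 : ζ t0 = 0) (hne : ∀ t ∈ Ioo t0 (t0 + L), ζ t ≠ 0) (hκ : (ζ' t0).im ≠ 0) :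
    ∃ σ : ℝ, (σ = 1 ∨ σ = -1) ∧
      Tendsto (fun s : ℝ => (∫ t in (0 : ℝ)..L, ζ' t / (ζ t - s)) -
        ∫ t in (0 : ℝ)..L, ζ' t / (ζ t + s)) (𝓝[>] (0 : ℝ))
        (𝓝 (-(σ : ℂ) * (2 * Real.pi * Complex.I))) := by
  have hζ : Continuous ζ := continuous_iff_continuousAt.2 fun t => (hd t).continuousAt
  -- the sign
  obtain ⟨σ, hσ, hσκ⟩ : ∃ σ : ℝ, (σ = 1 ∨ σ = -1) ∧ 0 < σ * (ζ' t0).im := by
    rcases lt_or_gt_of_ne (a := (ζ' t0).im) (b := (0 : ℝ)) hκ with h | h
    · exact ⟨-1, Or.inr rfl, by linarith⟩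
    · exact ⟨1, Or.inl rfl, by linarith⟩
  have hcim : Continuous fun t => σ * (ζ' t).im := by fun_prop
  obtain ⟨r, hr0, hr⟩ : ∃ r > 0, ∀ t, |t - t0| < r → 0 < σ * (ζ' t).im := by
    have h1 : ∀ᶠ t in 𝓝 t0, 0 < σ * (ζ' t).im := 
      (hcim.tendsto t0).eventually (lt_mem_nhds hσκ)
    obtain ⟨r, hr0, hr⟩ := Metric.eventually_nhds_iff.1 h1
    exact ⟨r, hr0, fun t ht => hr (by rwa [Real.dist_eq])⟩
  set e := min r L / 3 with he
  have he0 : 0 < e := by rw [he]; positivity
  have her : e < r := by rw [he]; have := min_le_left r L; linarith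
  have heL : 2 * e < L := by rw [he]; have := min_le_right r L; linarith
  have hmono : StrictMonoOn (fun t => σ * (ζ t).im) (Icc (t0 - e) (t0 + e)) := by
    apply strictMonoOn_of_deriv_pos (convex_Icc _ _)
    · fun_prop
    · intro t ht
      rw [interior_Icc] at ht
      have h2 : HasDerivAt (fun t => σ * (ζ t).im) (σ * (ζ' t).im) t := by
        have h3 : HasDerivAt (fun t => (ζ t).im) (ζ' t).im t := by
          exact (Complex.imCLM.hasFDerivAt.comp_hasDerivAt t (hd t))
        exact h3.const_mul σ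
      rw [h2.deriv]
      apply hr
      rw [abs_lt]
      exact ⟨by linarith [ht.1], by linarith [ht.2]⟩
  have hpos : ∀ t ∈ Ioc t0 (t0 + e), 0 < σ * (ζ t).im := by
    intro t ht
    have h4 := hmono (a := t0) ⟨by linarith, by linarith⟩ (b := t) ⟨by linarith [ht.1], ht.2⟩ ht.1
    simpa [h0] using h4
  have hneg : ∀ t ∈ Ico (t0 - e) t0, σ * (ζ t).im < 0 := by
    intro t ht
    have h4 := hmono (a := t) ⟨ht.1, by linarith [ht.2]⟩ (b := t0) ⟨by linarith, by linarith⟩ ht.2
    simpa [h0] using h4
  have hnear := jump_near hd hc he0 h0 hσ hpos hneg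
  have hfar := jump_far hζ hc (a := t0 + e) (b := t0 - e + L) (by linarith) (fun t ht =>
    hne t ⟨by linarith [ht.1], by linarith [ht.2]⟩)
  have hsum := hnear.add hfar
  rw [add_zero] at hsum
  -- a lower bound of `ζ` on the far part, for integrability
  obtain ⟨m, hm0, hm⟩ : ∃ m : ℝ, 0 < m ∧ ∀ t ∈ Icc (t0 + e) (t0 - e + L), m ≤ ‖ζ t‖ := by
    obtain ⟨t1, ht1, hmin⟩ := isCompact_Icc.exists_isMinOn
      (nonempty_Icc.2 (by linarith : t0 + e ≤ t0 - e + L))
      (hζ.norm.continuousOn (s := Icc (t0 + e) (t0 - e + L)))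
    exact ⟨‖ζ t1‖, norm_pos_iff.2 (hne t1 ⟨by linarith [ht1.1], by linarith [ht1.2]⟩),
      fun t ht => hmin ht⟩
  have hsm : ∀ᶠ s in 𝓝[>] (0 : ℝ), s ∈ Ioo (0 : ℝ) m := Ioo_mem_nhdsGT hm0
  refine ⟨σ, hσ, hsum.congr' ?_⟩
  filter_upwards [hsm] with s hs2
  have hs0 : ‖(s : ℂ)‖ = s := by rw [Complex.norm_real, Real.norm_eq_abs, abs_of_pos hs2.1]
  -- periodicity of the integrands
  have hp1 : Function.Periodic (fun t => ζ' t / (ζ t - s)) L := fun t => by
    simp only [hper, hper']
  have hp2 : Function.Periodic (fun t => ζ' t / (ζ t + s)) L := fun t => by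
    simp only [hper, hper']
  have hz1 := hp1.intervalIntegral_add_eq 0 (t0 - e)
  have hz2 := hp2.intervalIntegral_add_eq 0 (t0 - e)
  rw [zero_add] at hz1 hz2
  have hnz1 : ∀ t ∈ Icc (t0 - e) (t0 - e + L), ζ t - s ≠ 0 ∧ ζ t + s ≠ 0 := by
    intro t ht
    by_cases htn : t ≤ t0 + e
    · by_cases htt : t = t0
      · rw [htt, h0, zero_sub, zero_add]
        have : (s : ℂ) ≠ 0 := by exact_mod_cast hs2.1.ne'
        exact ⟨neg_ne_zero.2 this, this⟩
      · have him : (ζ t).im ≠ 0 := by
          intro h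
          rcases lt_or_gt_of_ne htt with h1 | h1
          · have := hneg t ⟨ht.1, h1⟩
            rw [h, mul_zero] at this
            exact lt_irrefl _ this
          · have := hpos t ⟨h1, htn⟩
            rw [h, mul_zero] at this
            exact lt_irrefl _ this
        constructor
        · intro h
          apply him
          have := congrArg Complex.im h
          simpa using this
        · intro h
          apply him
          have := congrArg Complex.im h
          simpa using this
    · push Not at htn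
      have h7 := hm t ⟨htn.le, ht.2⟩
      constructor
      · intro h
        rw [sub_eq_zero] at h
        rw [h, hs0] at h7
        linarith [hs2.2]
      · intro h
        rw [add_eq_zero_iff_eq_neg] at h
        rw [h, norm_neg, hs0] at h7
        linarith [hs2.2]
  have hint1 : ∀ a b, t0 - e ≤ a → a ≤ b → b ≤ t0 - e + L →
      IntervalIntegrable (fun t => ζ' t / (ζ t - s)) MeasureTheory.volume a b := by
    intro a b ha hab hb
    apply ContinuousOn.intervalIntegrable
    rw [uIcc_of_le hab]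
    exact hc.continuousOn.div (hζ.sub continuous_const).continuousOn
      (fun t ht => (hnz1 t ⟨ha.trans ht.1, ht.2.trans hb⟩).1)
  have hint2 : ∀ a b, t0 - e ≤ a → a ≤ b → b ≤ t0 - e + L →
      IntervalIntegrable (fun t => ζ' t / (ζ t + s)) MeasureTheory.volume a b := by
    intro a b ha hab hb
    apply ContinuousOn.intervalIntegrable
    rw [uIcc_of_le hab]
    exact hc.continuousOn.div (hζ.add continuous_const).continuousOn
      (fun t ht => (hnz1 t ⟨ha.trans ht.1, ht.2.trans hb⟩).2)
  have hsp1 := intervalIntegral.integral_add_adjacent_intervals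
    (hint1 (t0 - e) (t0 + e) le_rfl (by linarith) (by linarith))
    (hint1 (t0 + e) (t0 - e + L) (by linarith) (by linarith) le_rfl)
  have hsp2 := intervalIntegral.integral_add_adjacent_intervals
    (hint2 (t0 - e) (t0 + e) le_rfl (by linarith) (by linarith))
    (hint2 (t0 + e) (t0 - e + L) (by linarith) (by linarith) le_rfl)
  rw [hz1, hz2, ← hsp1, ← hsp2]
  ring

theorem wind_jump_tendsto {γ : ℝ → Plane} (hγ : ContDiff ℝ 1 γ) {L : ℝ} (hL : 0 < L)
    (hper : ∀ t, γ (t + L) = γ t) {t0 : ℝ} (hs : ∀ t ∈ Ioo t0 (t0 + L), γ t ≠ γ t0) {ν : Plane}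
    (hν : det2 (deriv γ t0) ν ≠ 0) :
    ∃ σ : ℝ, (σ = 1 ∨ σ = -1) ∧
      Tendsto (fun s : ℝ => wind γ L (γ t0 + s • ν) - wind γ L (γ t0 - s • ν)) (𝓝[>] (0 : ℝ))
        (𝓝 (-(σ : ℂ) * (2 * Real.pi * Complex.I))) := by
  have hn : toC ν ≠ 0 := by
    intro h
    apply hν
    have h1 := congrArg Complex.re h
    have h2 := congrArg Complex.im h
    simp only [toC, Complex.zero_re, Complex.zero_im] at h1 h2
    simp [det2, h1, h2]
  have toC_sub : ∀ a b : Plane, toC (a - b) = toC a - toC b := by
    intro a b; apply Complex.ext <;> simp [toC]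
  have toC_add : ∀ a b : Plane, toC (a + b) = toC a + toC b := by
    intro a b; apply Complex.ext <;> simp [toC]
  have toC_smul : ∀ (r : ℝ) (a : Plane), toC (r • a) = r * toC a := by
    intro r a; apply Complex.ext <;> simp [toC]
  let T : Plane →L[ℝ] ℂ := LinearMap.toContinuousLinearMap
    { toFun := toC
      map_add' := toC_add
      map_smul' := fun r a => by rw [toC_smul]; simp }
  have hT : ∀ x, T x = toC x := fun x => rfl
  have hdγ : ∀ t, HasDerivAt γ (deriv γ t) t := fun t =>
    (hγ.differentiable one_ne_zero t).hasDerivAt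
  have hcγ : Continuous (deriv γ) := hγ.continuous_deriv le_rfl
  have hperd : ∀ t, deriv γ (t + L) = deriv γ t := by
    intro t
    have h1 : (fun t => γ (t + L)) = γ := funext hper
    have h2 := deriv_comp_add_const (f := γ) L t
    rw [h1] at h2
    exact h2.symm
  obtain ⟨σ, hσ, key⟩ := jumpC_tendsto (ζ := fun t => toC (γ t - γ t0) / toC ν) (ζ' := fun t => toC (deriv γ t) / toC ν)
    (fun t => by
      have h1 : HasDerivAt (fun t => γ t - γ t0) (deriv γ t) t := (hdγ t).sub_const _
      have h2 := (T.hasFDerivAt.comp_hasDerivAt t h1)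
      have h3 : HasDerivAt (fun t => toC (γ t - γ t0)) (toC (deriv γ t)) t := h2
      exact h3.div_const _)
    (by
      have h1 : Continuous fun t => T (deriv γ t) := T.continuous.comp hcγ
      exact h1.div_const _)
    hL (fun t => by simp only [hper]) (fun t => by simp only [hperd])
    (t0 := t0) (by
      have h1 : toC (γ t0 - γ t0) = 0 := by rw [toC_sub, sub_self]
      simp only [h1, zero_div])
    (by
      intro t ht h
      rw [div_eq_zero_iff] at h
      rcases h with h | h
      · apply hs t ht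
        rw [toC_sub, sub_eq_zero] at h
        have h1 := congrArg Complex.re h
        have h2 := congrArg Complex.im h
        simp only [toC] at h1 h2
        ext i
        fin_cases i
        · exact h1
        · exact h2
      · exact hn h)
    (by
      intro h
      apply hν
      rw [Complex.div_im] at h
      have hq : Complex.normSq (toC ν) ≠ 0 := fun h' => hn (Complex.normSq_eq_zero.1 h')
      simp only [toC] at h hq
      field_simp at h
      unfold det2
      linarith)
  refine ⟨σ, hσ, key.congr fun s => ?_⟩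
  have e1 : ∀ t, toC (deriv γ t) / toC ν / (toC (γ t - γ t0) / toC ν - s) =
      toC (deriv γ t) / toC (γ t - (γ t0 + s • ν)) := by
    intro t
    have h1 : toC (γ t - (γ t0 + s • ν)) = toC (γ t - γ t0) - s * toC ν := by
      rw [toC_sub, toC_add, toC_smul, toC_sub]; ring
    have h2 : toC (γ t - γ t0) / toC ν - s = (toC (γ t - γ t0) - s * toC ν) / toC ν := by
      field_simp
    rw [h1, h2, div_div_div_cancel_right₀ hn]
  have e2 : ∀ t, toC (deriv γ t) / toC ν / (toC (γ t - γ t0) / toC ν + s) =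
      toC (deriv γ t) / toC (γ t - (γ t0 - s • ν)) := by
    intro t
    have h1 : toC (γ t - (γ t0 - s • ν)) = toC (γ t - γ t0) + s * toC ν := by
      rw [toC_sub, toC_sub, toC_smul, toC_sub]; ring
    have h2 : toC (γ t - γ t0) / toC ν + s = (toC (γ t - γ t0) + s * toC ν) / toC ν := by
      field_simp
    rw [h1, h2, div_div_div_cancel_right₀ hn]
  unfold wind
  simp only [e1, e2]


end Pool.Agent.Lib_MP_752436_hb
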