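import Pool.Agent.Lib_MP_752436_hb.Jump

/-!
Births and half of the triple points: the parity of the number of jumps of an integer valued
function, and integer winding numbers.
-/

open Metric Set Filter
open scoped ContDiff Topology

namespace Pool.Agent.Lib_MP_752436_hb

open Pool.Agent.Lib_MP_752436_gt Pool.Agent.Lib_MP_752436_tp

/-- An integer valued function with finitely many jumps by one. -/
theorem even_line (w : ℝ → ℤ) (a : ℝ) (K : Finset ℝ) :
    ∀ b, a ≤ b → (∀ t ∈ K, a < t ∧ t < b) →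
      (∀ t ∈ Icc a b, t ∉ K → ∀ᶠ s in 𝓝 t, w s = w t) →
      (∀ t ∈ K, ∃ n n' : ℤ, (n - n' = 1 ∨ n - n' = -1) ∧
        ∀ᶠ s in 𝓝[>] (0 : ℝ), w (t + s) = n ∧ w (t - s) = n') →
      Even (w b - w a + K.card) := by
  classical
  -- constancy off the jumps
  have hcon : ∀ S : Set ℝ, IsPreconnected S → (∀ t ∈ S, ∀ᶠ s in 𝓝 t, w s = w t) →
      ∀ x ∈ S, ∀ y ∈ S, w x = w y := by
    intro S hS h x hx y hy
    refine hS.constant (f := w) (fun t ht => ?_) hx hy
    have h1 : ContinuousAt w t := by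
      have h2 : w =ᶠ[𝓝 t] fun _ => w t := h t ht
      exact (continuousAt_const (y := w t)).congr h2.symm
    exact h1.continuousWithinAt
  induction K using Finset.induction_on_max with
  | empty =>
    intro b hab _ hc _
    have h1 := hcon (Icc a b) isPreconnected_Icc (fun t ht => hc t ht (by simp)) b
      ⟨hab, le_rfl⟩ a ⟨le_rfl, hab⟩
    rw [h1]
    simp
  | insert k K hmax ih =>
    intro b hab hK hc hj
    have hkK : k ∉ K := fun h => lt_irrefl _ (hmax k h)
    obtain ⟨hak, hkb⟩ := hK k (Finset.mem_insert_self _ _)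
    obtain ⟨n, n', hn, hev⟩ := hj k (Finset.mem_insert_self _ _)
    -- a point `b'` just before `k`
    obtain ⟨m, hm1, hm2, hm3⟩ : ∃ m, a ≤ m ∧ m < k ∧ ∀ t ∈ K, t ≤ m := by
      refine ⟨(insert a K).max' (Finset.insert_nonempty _ _), ?_, ?_, ?_⟩
      · exact Finset.le_max' _ _ (Finset.mem_insert_self _ _)
      · rw [Finset.max'_lt_iff]
        intro t ht
        rcases Finset.mem_insert.1 ht with rfl | ht
        · exact hak
        · exact hmax t ht
      · exact fun t ht => Finset.le_max' _ _ (Finset.mem_insert_of_mem ht)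
    have hsm : ∀ᶠ s in 𝓝[>] (0 : ℝ), s ∈ Ioo (0 : ℝ) (min (k - m) (b - k)) :=
      Ioo_mem_nhdsGT (lt_min (by linarith) (by linarith))
    obtain ⟨s, ⟨hs1, hs2⟩, hs3⟩ := (hev.and hsm).exists
    have hs4 : s < k - m := lt_of_lt_of_le hs3.2 (min_le_left _ _)
    have hs5 : s < b - k := lt_of_lt_of_le hs3.2 (min_le_right _ _)
    have hs0 := hs3.1
    have h1 := ih (k - s) (by linarith) (fun t ht => ⟨(hK t (Finset.mem_insert_of_mem ht)).1, by
        have := hm3 t ht
        linarith⟩)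
      (fun t ht htK => hc t ⟨ht.1, by linarith [ht.2]⟩ (by
        rw [Finset.mem_insert]
        rintro (rfl | h)
        · linarith [ht.2]
        · exact htK h))
      (fun t ht => hj t (Finset.mem_insert_of_mem ht))
    have h2 : w b = w (k + s) := by
      refine hcon (Ioc k b) isPreconnected_Ioc (fun t ht => hc t ⟨by linarith [ht.1], ht.2⟩ ?_) b
        ⟨hkb, le_rfl⟩ (k + s) ⟨by linarith, by linarith⟩
      rw [Finset.mem_insert]
      rintro (rfl | h)
      · exact lt_irrefl _ ht.1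
      · exact lt_asymm (hmax t h) ht.1
    rw [Finset.card_insert_of_notMem hkK, h2, hs1]
    rw [hs2] at h1
    push_cast
    rcases hn with hn | hn
    · have h3 : n - w a + ((K.card : ℤ) + 1) = (n' - w a + K.card) + 2 := by linarith
      rw [h3]
      exact h1.add even_two
    · have h3 : n - w a + ((K.card : ℤ) + 1) = n' - w a + K.card := by linarith
      rw [h3]
      exact h1

open Classical in
/-- The winding number as an integer. -/
noncomputable def wn (γ : ℝ → Plane) (L : ℝ) (p : Plane) : ℤ :=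
  if h : ∃ n : ℤ, wind γ L p = n * (2 * Real.pi * Complex.I) then h.choose else 0

private theorem two_pi_I_ne : (2 * Real.pi * Complex.I : ℂ) ≠ 0 := by
  have h6 : (Real.pi : ℂ) ≠ 0 := by exact_mod_cast Real.pi_ne_zero
  exact mul_ne_zero (mul_ne_zero two_ne_zero h6) Complex.I_ne_zero

section

variable {γ : ℝ → Plane} (hγ : ContDiff ℝ 1 γ) {L : ℝ} (hL : 0 < L) (hcl : γ L = γ 0)

include hγ hL hcl

theorem wn_spec {p : Plane} (hp : p ∉ γ '' Icc 0 L) :
    wind γ L p = wn γ L p * (2 * Real.pi * Complex.I) := by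
  have h : ∃ n : ℤ, wind γ L p = n * (2 * Real.pi * Complex.I) := wc_int hγ hL hcl hp
  unfold wn
  rw [dif_pos h]
  exact h.choose_spec

theorem wn_const {S : Set Plane} (hS : IsPreconnected S) (hd : Disjoint S (γ '' Icc 0 L))
    {p q : Plane} (hp : p ∈ S) (hq : q ∈ S) : wn γ L p = wn γ L q := by
  have h1 := wind_const hγ hL hcl hS hd hp hq
  rw [wn_spec hγ hL hcl (disjoint_left.1 hd hp), wn_spec hγ hL hcl (disjoint_left.1 hd hq)] at h1
  exact_mod_cast mul_right_cancel₀ two_pi_I_ne h1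

theorem wn_zero {S : Set Plane} (hS : IsPreconnected S) (hd : Disjoint S (γ '' Icc 0 L))
    (hu : ¬ Bornology.IsBounded S) {p : Plane} (hp : p ∈ S) : wn γ L p = 0 := by
  have h1 := wind_zero hγ hL hcl hS hd hu hp
  rw [wn_spec hγ hL hcl (disjoint_left.1 hd hp)] at h1
  rcases mul_eq_zero.1 h1 with h | h
  · exact_mod_cast h
  · exact absurd h two_pi_I_ne

/-- The winding number is zero on the unit circle, if the curve lies in the open disc. -/
theorem wn_sphere (hb : ∀ t ∈ Icc 0 L, γ t ∈ ball (0 : Plane) 1) {p : Plane}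
    (hp : p ∈ sphere (0 : Plane) 1) : wn γ L p = 0 := by
  have hp1 : ‖p‖ = 1 := mem_sphere_zero_iff_norm.1 hp
  refine wn_zero hγ hL hcl (S := (fun r : ℝ => r • p) '' Ici 1) ?_ ?_ ?_ ⟨1, mem_Ici.2 le_rfl, one_smul _ _⟩
  · exact isPreconnected_Ici.image _ (by fun_prop)
  · rw [disjoint_left]
    rintro _ ⟨r, hr, rfl⟩ ⟨t, ht, h⟩
    have h1 := mem_ball_zero_iff.1 (hb t ht)
    rw [h] at h1
    simp only [norm_smul, hp1, mul_one, Real.norm_eq_abs] at h1
    have h2 : (1 : ℝ) ≤ r := hr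
    have h3 := le_abs_self r
    linarith
  · intro hbd
    obtain ⟨C, hC⟩ := isBounded_iff_forall_norm_le.1 hbd
    have h1 := hC ((max C 1 + 1) • p) ⟨max C 1 + 1, by
      have := le_max_right C 1
      exact mem_Ici.2 (by linarith), rfl⟩
    rw [norm_smul, hp1, mul_one, Real.norm_eq_abs] at h1
    have h2 := le_abs_self (max C 1 + 1)
    have h3 := le_max_left C 1
    linarith

end

/-- A curve which crosses a closed curve at a simple point. -/
theorem wn_cross {γ : ℝ → Plane} (hγ : ContDiff ℝ 1 γ) {L : ℝ} (hL : 0 < L)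
    (hper : ∀ t, γ (t + L) = γ t) {t0 : ℝ} (hs : ∀ t ∈ Ioo t0 (t0 + L), γ t ≠ γ t0) {ν : Plane}
    (hν : det2 (deriv γ t0) ν ≠ 0) {δ : ℝ → Plane} {r0 : ℝ} (hδ : HasDerivAt δ ν r0)
    (hδ0 : δ r0 = γ t0) : ∃ n n' : ℤ, (n - n' = 1 ∨ n - n' = -1) ∧
      ∀ᶠ s in 𝓝[>] (0 : ℝ), wn γ L (δ (r0 + s)) = n ∧ wn γ L (δ (r0 - s)) = n' := by
  obtain ⟨η, hη, -, N, P, M, hb, htN, -, hNr, -, hcross⟩ :=
    exists_jumpBox hγ hL hper hs hν (univ_mem) one_pos
  have hcl : γ L = γ 0 := by simpa using hper 0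
  have hPN : P ⊆ N := by rw [hb.union]; exact fun x hx => Or.inl (Or.inl hx)
  have hMN : M ⊆ N := by rw [hb.union]; exact fun x hx => Or.inl (Or.inr hx)
  have hdP : Disjoint P (γ '' Icc 0 L) := Set.disjoint_left.2 fun x hx hx' =>
    (Set.disjoint_left.1 hb.disjPA hx) (hNr ⟨hPN hx, image_subset_range _ _ hx'⟩)
  have hdM : Disjoint M (γ '' Icc 0 L) := Set.disjoint_left.2 fun x hx hx' =>
    (Set.disjoint_left.1 hb.disjMA hx) (hNr ⟨hMN hx, image_subset_range _ _ hx'⟩)
  have hev := hcross δ r0 hδ hδ0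
  obtain ⟨s0, h1, h2⟩ := hev.exists
  refine ⟨wn γ L (δ (r0 + s0)), wn γ L (δ (r0 - s0)), ?_, ?_⟩
  · have hδ' : HasDerivAt (fun s : ℝ => γ t0 + s • ν) ν 0 := by
      have h1 := (hasDerivAt_id (0 : ℝ)).smul_const ν
      simpa using h1.const_add (γ t0)
    have hev' := hcross (fun s => γ t0 + s • ν) 0 hδ' (by simp)
    obtain ⟨σ, hσ, hlim⟩ := wind_jump_tendsto hγ hL hper hs hν
    have hlim2 : Tendsto (fun _ : ℝ => ((wn γ L (δ (r0 + s0)) : ℂ) - wn γ L (δ (r0 - s0))) *
        (2 * Real.pi * Complex.I)) (𝓝[>] (0 : ℝ)) (𝓝 (-(σ : ℂ) * (2 * Real.pi * Complex.I))) := by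
      refine hlim.congr' ?_
      filter_upwards [hev'] with s hs
      obtain ⟨hs1, hs2⟩ := hs
      simp only [zero_add, zero_sub] at hs1 hs2
      have hs2' : γ t0 - s • ν ∈ M := by
        rw [neg_smul, ← sub_eq_add_neg] at hs2
        exact hs2
      rw [wind_const hγ hL hcl hb.connP hdP hs1 h1, wind_const hγ hL hcl hb.connM hdM hs2' h2,
        wn_spec hγ hL hcl (disjoint_left.1 hdP h1), wn_spec hγ hL hcl (disjoint_left.1 hdM h2)]
      ring
    have heq := tendsto_nhds_unique (tendsto_const_nhds) hlim2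
    have heq2 := mul_right_cancel₀ two_pi_I_ne heq
    rcases hσ with rfl | rfl
    · right
      have h3 : ((wn γ L (δ (r0 + s0)) - wn γ L (δ (r0 - s0)) : ℤ) : ℂ) = ((-1 : ℤ) : ℂ) := by
        push_cast
        rw [heq2]
        push_cast
        ring
      exact_mod_cast h3
    · left
      have h3 : ((wn γ L (δ (r0 + s0)) - wn γ L (δ (r0 - s0)) : ℤ) : ℂ) = ((1 : ℤ) : ℂ) := by
        push_cast
        rw [heq2]
        push_cast
        ring
      exact_mod_cast h3
  · filter_upwards [hev] with s hs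
    exact ⟨wn_const hγ hL hcl hb.connP hdP hs.1 h1, wn_const hγ hL hcl hb.connM hdM hs.2 h2⟩

end Pool.Agent.Lib_MP_752436_hb
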