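import Pool.Agent.Lib_MP_752436_hb.Parity
import Pool.Agent.Lib_MP_752436_ch.NoBottom
import Pool.Agent.Lib_MP_752436_tp.OneDim

/-!
Births and half of the triple points: the turned double curves of a slice disc in general position
cross transversally.
-/

open Metric Set Filter
open scoped ContDiff Topology

namespace Pool.Agent.Lib_MP_752436_hb

open Pool.Agent.Lib_MP_752436_gt Pool.Agent.Lib_MP_752436_tp Pool.Agent.Lib_MP_752436_ch

section

variable {F : Plane → EuclideanSpace ℝ (Fin 4)} {ι : Type} {G : Curves ι}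

/-- The velocities of the upper and the lower curve have the same image. -/
theorem tangent (hF : IsSliceDisc F) (h : IsCurves G (DoubleSet F)) {i : ι} {t : ℝ}
    (ht : t ∈ G.dom i) : fderiv ℝ (shadow F) (G.fst i t) (deriv (G.fst i) t) =
      fderiv ℝ (shadow F) (G.snd i t) (deriv (G.snd i) t) := by
  have hsh : ContDiff ℝ ∞ (shadow F) := od_contDiff_shadow hF
  have hsd : ∀ x, HasFDerivAt (shadow F) (fderiv ℝ (shadow F) x) x := fun x =>
    (hsh.differentiable (by simp) x).hasFDerivAt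
  obtain ⟨a, b, hab, htab, hdom⟩ : ∃ a b : ℝ, a < b ∧ t ∈ Icc a b ∧ ∀ s ∈ Icc a b, s ∈ G.dom i := by
    rcases ht with hc | ht
    · exact ⟨t, t + 1, by linarith, ⟨le_rfl, by linarith⟩, fun s _ => Or.inl hc⟩
    · exact ⟨0, G.len i, h.pos i, ht, fun s hs => Or.inr hs⟩
  have hc : Differentiable ℝ (G.c i) := (h.smooth i).differentiable (by simp)
  have h1 : HasDerivAt (G.fst i) (deriv (G.fst i) t) t := (hc.fst t).hasDerivAt
  have h2 : HasDerivAt (G.snd i) (deriv (G.snd i) t) t := (hc.snd t).hasDerivAt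
  have h3 : HasDerivWithinAt (fun s => shadow F (G.fst i s))
      (fderiv ℝ (shadow F) (G.fst i t) (deriv (G.fst i) t)) (Icc a b) t :=
    HasDerivAt.hasDerivWithinAt (HasFDerivAt.comp_hasDerivAt (f := G.fst i) t
      (hsd (G.fst i t)) h1)
  have h4 : HasDerivWithinAt (fun s => shadow F (G.snd i s))
      (fderiv ℝ (shadow F) (G.snd i t) (deriv (G.snd i) t)) (Icc a b) t :=
    HasDerivAt.hasDerivWithinAt (HasFDerivAt.comp_hasDerivAt (f := G.snd i) t
      (hsd (G.snd i t)) h2)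
  have h5 : HasDerivWithinAt (fun s => shadow F (G.fst i s))
      (fderiv ℝ (shadow F) (G.snd i t) (deriv (G.snd i) t)) (Icc a b) t :=
    h4.congr (fun s hs => (h.mem (hdom s hs)).2.2.1) (h.mem (hdom t htab)).2.2.1
  exact (uniqueDiffOn_Icc hab t htab).eq_deriv _ h3 h5

theorem tangent_flip (hF : IsSliceDisc F) (h : IsCurves G (DoubleSet F)) (φ : ι → Prop) {i : ι}
    {t : ℝ} (ht : t ∈ G.dom i) :
    fderiv ℝ (shadow F) ((G.flip φ).fst i t) (deriv ((G.flip φ).fst i) t) =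
      fderiv ℝ (shadow F) ((G.flip φ).snd i t) (deriv ((G.flip φ).snd i) t) := by
  by_cases hi : φ i
  · rw [fl_fst hi, fl_snd hi]
    exact (tangent hF h ht).symm
  · rw [fl_fst_not hi, fl_snd_not hi]
    exact tangent hF h ht

theorem parallel_of_det2 {a b : Plane} (h : det2 a b = 0) (hb : b ≠ 0) : ∃ r : ℝ, a = r • b := by
  unfold det2 at h
  by_cases h0 : b 0 = 0
  · have h1 : b 1 ≠ 0 := by
      intro h1
      apply hb
      ext k
      fin_cases k
      · exact h0
      · exact h1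
    refine ⟨a 1 / b 1, ?_⟩
    rw [h0, mul_zero, sub_zero] at h
    ext k
    fin_cases k
    · show a 0 = (a 1 / b 1) * b 0
      rw [h0, mul_zero]
      exact (mul_eq_zero.1 h).resolve_right h1
    · show a 1 = (a 1 / b 1) * b 1
      rw [div_mul_cancel₀ _ h1]
  · refine ⟨a 0 / b 0, ?_⟩
    ext k
    fin_cases k
    · show a 0 = (a 0 / b 0) * b 0
      rw [div_mul_cancel₀ _ h0]
    · show a 1 = (a 0 / b 0) * b 1
      field_simp
      linarith

variable {Φ : Set (Plane × Plane)}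

/-- The turned curves. -/
theorem isCurves_turn (hS : Strict (DoubleSet F)) (h : IsCurves G (DoubleSet F))
    (hT : Turnable (DoubleSet F) Φ) :
    IsCurves (G.flip fun i => G.c i 0 ∈ Φ) (turn (DoubleSet F) Φ) := by
  have hφ : ∀ i, G.c i 0 ∈ Φ → G.closed i := by
    intro i hi
    by_contra hncl
    have h1 := mem_ball_zero_iff.1 (hT.inside _ hi)
    have h2 := mem_sphere_zero_iff_norm.1 (h.ends i hncl).1
    exact absurd h2 h1.ne
  have hasym : ∀ x y, (x, y) ∈ DoubleSet F → (y, x) ∉ DoubleSet F := fun x y h1 h2 =>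
    hS.irrefl x (hS.trans _ _ _ h1 h2)
  have h1 := isCurves_flip h hasym hφ
  have hcon : ∀ i, ∀ s ∈ Icc 0 (G.len i), ∀ t ∈ Icc 0 (G.len i), G.c i s ∈ Φ → G.c i t ∈ Φ := by
    intro i s hs t ht hsK
    by_contra hno
    obtain ⟨r, _, hr1, hr2⟩ := isPreconnected_closed_iff.1
      (isPreconnected_Icc (a := (0 : ℝ)) (b := G.len i)) (G.c i ⁻¹' Φ) (G.c i ⁻¹' (DoubleSet F \ Φ))
      (hT.closed.preimage (h.smooth i).continuous) (hT.closed'.preimage (h.smooth i).continuous)
      (fun r hr => by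
        by_cases h4 : G.c i r ∈ Φ
        · exact Or.inl h4
        · exact Or.inr ⟨h.mem (Or.inr hr), h4⟩)
      ⟨s, hs, hsK⟩ ⟨t, ht, h.mem (Or.inr ht), hno⟩
    exact hr2.2 hr1
  have h0 : ∀ i, (0 : ℝ) ∈ Icc 0 (G.len i) := fun i => ⟨le_rfl, (h.pos i).le⟩
  have hsup : (G.flip fun i => G.c i 0 ∈ Φ).support = turn (DoubleSet F) Φ := by
    ext p
    rw [mem_support_flip]
    constructor
    · rintro (⟨i, hi, t, ht, rfl⟩ | ⟨i, hi, t, ht, he⟩)
      · exact Or.inl ⟨h.mem (Or.inr ht), fun h2 => hi (hcon i t ht 0 (h0 i) h2)⟩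
      · refine Or.inr ?_
        rw [← he]
        exact hcon i 0 (h0 i) t ht hi
    · rintro (⟨hp, hp'⟩ | hp)
      · obtain ⟨i, t, ht, rfl⟩ := h.exists_param hp
        exact Or.inl ⟨i, fun h2 => hp' (hcon i 0 (h0 i) t ht h2), t, ht, rfl⟩
      · obtain ⟨i, t, ht, he⟩ := h.exists_param (hT.sub hp)
        exact Or.inr ⟨i, hcon i t ht 0 (h0 i) (by rw [he]; exact hp), t, ht, he⟩
  rw [hsup] at h1
  exact h1

/-- The turned curves cross transversally. -/
theorem transverse_turn (hF : IsSliceDisc F) (hg : InGeneralPosition F)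
    (hS : Strict (DoubleSet F)) (h : IsCurves G (DoubleSet F)) (hT : Turnable (DoubleSet F) Φ) :
    ∀ i j s t, s ∈ (G.flip fun i => G.c i 0 ∈ Φ).dom i → t ∈ (G.flip fun i => G.c i 0 ∈ Φ).dom j →
      (G.flip fun i => G.c i 0 ∈ Φ).fst i s = (G.flip fun i => G.c i 0 ∈ Φ).snd j t →
      det2 (deriv ((G.flip fun i => G.c i 0 ∈ Φ).fst i) s)
        (deriv ((G.flip fun i => G.c i 0 ∈ Φ).snd j) t) ≠ 0 := by
  intro i j s t hs ht hst hdet
  have hG := isCurves_turn hS h hT
  have hs' : s ∈ G.dom i := hs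
  have ht' : t ∈ G.dom j := ht
  have htan1 := tangent_flip hF h (fun i => G.c i 0 ∈ Φ) hs'
  have htan2 := tangent_flip hF h (fun i => G.c i 0 ∈ Φ) ht'
  have hP1 : (G.flip fun i => G.c i 0 ∈ Φ).c i s ∈ turn (DoubleSet F) Φ := hG.mem hs
  have hP2 : (G.flip fun i => G.c i 0 ∈ Φ).c j t ∈ turn (DoubleSet F) Φ := hG.mem ht
  have hreg1 := hG.immFst i s hs
  have hreg2 := hG.immSnd j t ht
  generalize (G.flip fun i => G.c i 0 ∈ Φ) = G' at *
  set x := G'.fst j t with hx
  set y := G'.snd j t with hy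
  set z := G'.snd i s with hz
  have h1 : (x, y) ∈ turn (DoubleSet F) Φ := hP2
  have h2 : (y, z) ∈ turn (DoubleSet F) Φ := by
    rw [← hst]
    exact hP1
  obtain ⟨hyz, _, hxz, _⟩ := turn_chain hS hT h1 h2
  rw [hst] at htan1
  obtain ⟨r, hr⟩ := parallel_of_det2 hdet hreg2
  have h3 : fderiv ℝ (shadow F) x (r • deriv (G'.fst j) t) =
      fderiv ℝ (shadow F) y (deriv (G'.fst i) s) := by
    rw [hr, map_smul, map_smul, htan2]
  have himm : fderiv ℝ (shadow F) y (deriv (G'.fst i) s) ≠ 0 := fun h0 =>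
    hreg1 (hg.immersion y hyz.1 _ h0)
  rcases h1 with h1 | h1
  · have h4 := hg.triple x y z ⟨h1.1, hyz⟩ _ _ _ h3 htan1
    rw [h4, map_zero] at h3
    exact himm h3.symm
  · have h5 : (y, x) ∈ DoubleSet F := hT.sub h1
    have h4 := hg.triple y x z ⟨h5, hxz⟩ _ _ _ h3.symm (h3.trans htan1)
    exact hreg1 h4

/-- The parity statement for the turned double set. -/
theorem even_turn [Finite ι] (hF : IsSliceDisc F) (hg : InGeneralPosition F)
    (hS : Strict (DoubleSet F)) (h : IsCurves G (DoubleSet F)) (hT : Turnable (DoubleSet F) Φ)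
    (hV : (vertices (turn (DoubleSet F) Φ)).Finite) {K : Set (Plane × Plane)}
    (hKT : K ⊆ turn (DoubleSet F) Φ) (hK : IsClosed K) (hK' : IsClosed (turn (DoubleSet F) Φ \ K))
    (hKb : ∀ p ∈ K, p.2 ∈ ball (0 : Plane) 1) :
    Even {p | p ∈ K ∧ ∃ x, (x, p.1) ∈ turn (DoubleSet F) Φ}.ncard :=
  even_clopen (isCurves_turn hS h hT) (strict_turn hS hT) hV
    (transverse_turn hF hg hS h hT) hKT hK hK' hKb

end

end Pool.Agent.Lib_MP_752436_hb
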