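import Pool.Agent.Lib_MP_752436_hb.Graph
import Pool.Agent.Lib_MP_752436_hb.Turned
import Pool.Agent.Lib_MP_752436_hb.Edges2
import Pool.Agent.Lib_MP_752436_ch.Circles
import Pool.Agent.Lib_MP_752436_ch.TameGen

/-!
Births and half of the triple points: a slice disc in general position can be replaced by a Morse
slice disc with the same projection with at most half as many births as triple points.
-/

open MeasureTheory Metric Set Filter
open scoped ContDiff Topology

namespace Pool.Agent.Lib_MP_752436_hb

open Pool.Agent.Lib_MP_752436_gt Pool.Agent.Lib_MP_752436_tp Pool.Agent.Lib_MP_752436_rb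
  Pool.Agent.Lib_MP_752436_ch

variable {F : Plane → EuclideanSpace ℝ (Fin 4)}

theorem two_births_le (hF : IsSliceDisc F) (hg : InGeneralPosition F) :
    ∃ G, MorseDisc G ∧ 2 * (births G).encard ≤ (triplePoints F).encard ∧
      ∀ x, shadow G x = shadow F x := by
  classical
  have h : Tame F := tame_of_generalPosition hF hg
  have hS := strict_doubleSet hF h
  obtain ⟨ι, hι, G, hG⟩ := exists_curves hF hg.generalPosition
  obtain ⟨κ, hκ, c, a, b, hE, hfinish, hint⟩ :=
    exists_edges_finish (finite_vertices h) (curveSystem_of_isCurves hG)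
  have hfin := finite_comps h
  obtain ⟨A, hA, htrap⟩ := exists_turn hS hfin
  have hT : Turnable (DoubleSet F) (⋃₀ A) := turnable_free hS hfin hA
  set D := DoubleSet F with hD
  set Φ := ⋃₀ A with hΦ
  have hE' : Edges (turnEdge Φ c a) a b (turn D Φ) :=
    edges_turn hS hT hE (hE.regular_snd hF h)
  have hS' := strict_turn hS hT
  have hfinish' := finish_turn (Φ := Φ) hS hE hfinish
  have hball : ∀ e, ∀ t ∈ Ioo (a e) (b e), (turnEdge Φ c a e t).2 ∈ ball (0 : Plane) 1 := by
    intro e t ht
    unfold turnEdge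
    split_ifs with h1
    · exact hS.fstMem _ (hE.mem e t (Ioo_subset_Icc_self ht))
    · obtain ⟨i, s, hs, he⟩ := hint e t ht
      rw [he]
      by_cases hcl : G.closed i
      · exact hG.sndClosed i hcl (G.len i * s)
      · exact hG.sndArc i hcl (G.len i * s) ⟨mul_pos (hG.pos i) hs.1,
          mul_lt_of_lt_one_right (hG.pos i) hs.2⟩
  have hV : (vertices (turn D Φ)).Finite := by
    refine ((finite_vertices h).union ((finite_vertices h).image Prod.swap)).subset ?_
    intro p hp
    rcases hp.1 with h1 | h1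
    · exact Or.inl ((vertices_turn hS hT h1.1 h1.2).1 hp)
    · exact Or.inr ⟨p.swap, (vertices_turn_swap hS hT h1).1 hp, Prod.swap_swap p⟩
  have hbot : bottoms (turn D Φ) = triplePoints F := by
    ext z
    exact bottom_turn hS hT z
  have hbfin : (bottoms (turn D Φ)).Finite := by
    rw [hbot]
    refine (h.triple.image fun p => p.2.2).subset ?_
    rintro z ⟨x, y, hz⟩
    exact ⟨(x, y, z), hz, rfl⟩
  obtain ⟨P, hP1, hP2, hP3⟩ := exists_half hS' hE' hfinish' hball hbfin
    (fun K hKT hK hK' hKb => even_turn hF hg hS hG hT hV hKT hK hK' hKb)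
    (fun Z hZ => by
      obtain ⟨z, hz, x, y, h1, h2⟩ := htrap Z hZ
      exact ⟨z, hz, x, y, h1, h2⟩)
  have hPfin : P.Finite := by
    by_contra hinf
    have h1 : P.Infinite := hinf
    rw [h1.encard_eq, hbfin.encard_eq_coe_toFinset_card] at hP1
    have h2 : (2 : ℕ∞) * ⊤ = ⊤ := ENat.mul_top (by norm_num)
    rw [h2] at hP1
    exact absurd (top_le_iff.1 hP1) (ENat.natCast_ne_top _)
  have hR := crossingInfo_turn hS hT (crossingInfo_doubleSet hF h)
  obtain ⟨G', hG', hGm, -, hsh, -⟩ :=
    (diagram_births (contDiff_shadow hF) h.injective hR P.ncard).2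
      ⟨P, by rw [hPfin.cast_ncard_eq], hP2, hP3⟩
  refine ⟨G', hG', ?_, hsh⟩
  rw [← hbot]
  refine le_trans ?_ hP1
  rw [← hPfin.cast_ncard_eq]
  exact mul_le_mul_right hGm 2

/-- A slice disc in general position with at most one triple point. -/
theorem ribbon_of_one (hF : IsSliceDisc F) (hg : InGeneralPosition F)
    (h1 : (triplePoints F).encard ≤ 1) : IsRibbonKnot (boundaryKnot F) := by
  obtain ⟨G, hG, hGm, hs⟩ := two_births_le hF hg
  have h0 : births G = ∅ := by
    by_contra hne
    have h2 : 1 ≤ (births G).encard := Set.one_le_encard_iff_nonempty.2 (nonempty_iff_ne_empty.2 hne)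
    have h3 : (2 : ℕ∞) * 1 ≤ 2 * (births G).encard := mul_le_mul_right h2 2
    have h4 := (h3.trans hGm).trans h1
    norm_num at h4
  refine Pool.Agent.Lib_MP_752436_nb.ribbon_of_shadow hG ?_ hs
  rw [h0]
  simp

end Pool.Agent.Lib_MP_752436_hb
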