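import Pool.Agent.Lib_MP_752436_hb.Line
import Pool.Agent.Lib_MP_752436_ch.Turn
import Pool.Agent.Lib_MP_752436_tp.Flip

/-!
Births and half of the triple points: the number of middle-bottom pairs on a closed double curve
is even.
-/

open Metric Set Filter
open scoped ContDiff Topology

namespace Pool.Agent.Lib_MP_752436_hb

open Pool.Agent.Lib_MP_752436_gt Pool.Agent.Lib_MP_752436_tp Pool.Agent.Lib_MP_752436_ch

/-- A finite set all of whose fibres have even cardinality. -/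
theorem even_of_fibers {α ι : Type} [Finite ι] {s : Set α} (hs : s.Finite) (f : α → ι)
    (h : ∀ j, Even {x | x ∈ s ∧ f x = j}.ncard) : Even s.ncard := by
  classical
  have := Fintype.ofFinite ι
  lift s to Finset α using hs
  rw [Set.ncard_coe_finset, Finset.card_eq_sum_card_fiberwise (f := f) (t := Finset.univ)
    (fun x _ => Finset.mem_coe.2 (Finset.mem_univ _))]
  refine Finset.even_sum _ fun j _ => ?_
  have h1 := h j
  have h2 : {x | x ∈ (s : Set α) ∧ f x = j} = ((s.filter fun x => f x = j : Finset α) : Set α) := by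
    ext x
    simp
  rwa [h2, Set.ncard_coe_finset] at h1

section

variable {ι : Type} [Finite ι] {G : Curves ι} {T : Set (Plane × Plane)}

/-- The lower point below a middle point is unique. -/
theorem unique_lower (hS : Strict T) {x y z z' : Plane} (h1 : (x, y) ∈ T) (h2 : (y, z) ∈ T)
    (h3 : (y, z') ∈ T) : z = z' := by
  by_contra hne
  rcases hS.above _ _ _ h2 h3 hne with h | h
  · exact hS.noFour _ _ _ _ h1 h2 h
  · exact hS.noFour _ _ _ _ h1 h3 h

/-- The upper point above a middle point is unique. -/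
theorem unique_upper (hS : Strict T) {x x' y z : Plane} (h1 : (x, y) ∈ T) (h2 : (x', y) ∈ T)
    (h3 : (y, z) ∈ T) : x = x' := by
  by_contra hne
  rcases hS.below _ _ _ h1 h2 hne with h | h
  · exact hS.noFour _ _ _ _ h h2 h3
  · exact hS.noFour _ _ _ _ h h1 h3

omit [Finite ι] in
/-- The lower curve `j` crosses the closed upper curve `i` an even number of times. -/
theorem even_cross (h : IsCurves G T) (hS : Strict T) (hV : (vertices T).Finite)
    (htr : ∀ i j s t, s ∈ G.dom i → t ∈ G.dom j → G.fst i s = G.snd j t →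
      det2 (deriv (G.fst i) s) (deriv (G.snd j) t) ≠ 0) {i : ι} (hi : G.closed i) (j : ι) :
    Even {P | (∃ t ∈ G.dom j, G.c j t = P) ∧ P.2 ∈ G.up i}.ncard := by
  classical
  set γ := G.fst i with hγd
  set δ := G.snd j with hδd
  set L := G.len i with hLd
  have hL : 0 < L := h.pos i
  have hγ : ContDiff ℝ 1 γ := (h.smooth i).fst
  have hδ : ContDiff ℝ 1 δ := (h.smooth j).snd
  have hper : ∀ t, γ (t + L) = γ t := fun t => congrArg Prod.fst (h.periodic i hi t)
  have hcl : γ L = γ 0 := by simpa using hper 0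
  have hup : G.up i = γ '' Icc 0 L := rfl
  have hupb : ∀ y ∈ G.up i, y ∈ ball (0 : Plane) 1 := by
    rintro _ ⟨s, hs, rfl⟩
    exact h.fstMem i s (Or.inr hs)
  have hupc : IsClosed (G.up i) := (isCompact_Icc.image hγ.continuous).isClosed
  set S := {P | (∃ t ∈ G.dom j, G.c j t = P) ∧ P.2 ∈ G.up i} with hSd
  have hSfin : S.Finite := by
    refine hV.subset ?_
    rintro P ⟨⟨t, ht, rfl⟩, s, hs, hst⟩
    refine ⟨h.mem ht, (G.c i s).2, Or.inl ?_⟩
    have h1 : G.c i s ∈ T := h.mem (Or.inr hs)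
    rw [← hst]
    exact h1
  -- the base points
  obtain ⟨τ, τ', hττ, hdom, hinj, hsurj, hends, hτ1, hτ2⟩ : ∃ τ τ' : ℝ, τ < τ' ∧
      (∀ t ∈ Icc τ τ', t ∈ G.dom j) ∧ InjOn (G.c j) (Ioo τ τ') ∧
      (∀ P ∈ S, ∃ t ∈ Ioo τ τ', G.c j t = P) ∧ wn γ L (δ τ') = wn γ L (δ τ) ∧
      δ τ ∉ G.up i ∧ δ τ' ∉ G.up i := by
    by_cases hj : G.closed j
    · obtain ⟨τ, hτ⟩ : ∃ τ, δ τ ∉ G.up i := by
        by_contra hcon
        push Not at hcon
        have h1 : (Ico 0 (G.len j)).Finite := by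
          refine Finite.of_finite_image (hSfin.subset ?_) (h.injClosed j hj)
          rintro _ ⟨t, _, rfl⟩
          exact ⟨⟨t, Or.inl hj, rfl⟩, hcon t⟩
        exact (Set.Ico_infinite (h.pos j)) h1
      have hp : δ (τ + G.len j) = δ τ := congrArg Prod.snd (h.periodic j hj τ)
      refine ⟨τ, τ + G.len j, by linarith [h.pos j], fun t _ => Or.inl hj, ?_, ?_, by rw [hp], hτ,
        by rwa [hp]⟩
      · intro s hs t ht hst
        by_contra hne
        rcases lt_or_gt_of_ne hne with hlt | hlt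
        · exact h.ne_of_mem_Ioo hj (s := t) (t := s) ⟨hlt, by linarith [ht.2, hs.1]⟩ hst.symm
        · exact h.ne_of_mem_Ioo hj (s := s) (t := t) ⟨hlt, by linarith [hs.2, ht.1]⟩ hst
      · rintro P ⟨⟨t, _, rfl⟩, hP⟩
        obtain ⟨t', ht', he⟩ := (h.periodic' hj).exists_mem_Ico (h.pos j) t τ
        refine ⟨t', ⟨lt_of_le_of_ne ht'.1 ?_, ht'.2⟩, he.symm⟩
        rintro rfl
        apply hτ
        show (G.c j τ).2 ∈ G.up i
        rw [← he]
        exact hP
    · have h0 : δ 0 ∉ G.up i := fun hmem => by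
        have h1 := mem_ball_zero_iff.1 (hupb _ hmem)
        have h2 := mem_sphere_zero_iff_norm.1 (h.ends j hj).1
        exact absurd h2 h1.ne
      have h1 : δ (G.len j) ∉ G.up i := fun hmem => by
        have h1 := mem_ball_zero_iff.1 (hupb _ hmem)
        have h2 := mem_sphere_zero_iff_norm.1 (h.ends j hj).2
        exact absurd h2 h1.ne
      refine ⟨0, G.len j, h.pos j, fun t ht => Or.inr ht,
        (h.injArc j hj).mono Ioo_subset_Icc_self, ?_, ?_, h0, h1⟩
      · rintro P ⟨⟨t, ht, rfl⟩, hP⟩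
        have ht' : t ∈ Icc 0 (G.len j) := ht.resolve_left hj
        refine ⟨t, ⟨lt_of_le_of_ne ht'.1 ?_, lt_of_le_of_ne ht'.2 ?_⟩, rfl⟩
        · rintro rfl
          exact h0 hP
        · rintro rfl
          exact h1 hP
      · have hb : ∀ t ∈ Icc 0 L, γ t ∈ ball (0 : Plane) 1 := fun t ht =>
          hupb _ ⟨t, ht, rfl⟩
        rw [wn_sphere hγ hL hcl hb (h.ends j hj).1, wn_sphere hγ hL hcl hb (h.ends j hj).2]
  have hKfin : {t | t ∈ Ioo τ τ' ∧ δ t ∈ G.up i}.Finite := by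
    refine Finite.of_finite_image (hSfin.subset ?_) (hinj.mono fun t ht => ht.1)
    rintro _ ⟨t, ht, rfl⟩
    exact ⟨⟨t, hdom t (Ioo_subset_Icc_self ht.1), rfl⟩, ht.2⟩
  set K : Finset ℝ := hKfin.toFinset with hKd
  have hKm : ∀ t, t ∈ K ↔ t ∈ Ioo τ τ' ∧ δ t ∈ G.up i := fun t => hKfin.mem_toFinset
  have hcard : S.ncard = K.card := by
    have h1 : S = G.c j '' (K : Set ℝ) := by
      ext P
      constructor
      · intro hP
        obtain ⟨t, ht, rfl⟩ := hsurj P hP
        exact ⟨t, Finset.mem_coe.2 ((hKm t).2 ⟨ht, hP.2⟩), rfl⟩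
      · rintro ⟨t, ht, rfl⟩
        have h2 := (hKm t).1 (Finset.mem_coe.1 ht)
        exact ⟨⟨t, hdom t (Ioo_subset_Icc_self h2.1), rfl⟩, h2.2⟩
    rw [h1, Set.InjOn.ncard_image, Set.ncard_coe_finset]
    intro s hs t ht hst
    exact hinj ((hKm s).1 (Finset.mem_coe.1 hs)).1 ((hKm t).1 (Finset.mem_coe.1 ht)).1 hst
  rw [hcard]
  have key := even_line (fun t => wn γ L (δ t)) τ K τ' hττ.le (fun t ht => ((hKm t).1 ht).1)
    (fun t ht htK => by
      have hnot : δ t ∉ G.up i := by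
        rcases ht.1.eq_or_lt with h1 | h1
        · rw [← h1]; exact hτ1
        · rcases ht.2.eq_or_lt with h2 | h2
          · rw [h2]; exact hτ2
          · exact fun hmem => htK ((hKm t).2 ⟨⟨h1, h2⟩, hmem⟩)
      obtain ⟨r, hr, hball⟩ := Metric.isOpen_iff.1 hupc.isOpen_compl _ hnot
      have hd : Disjoint (ball (δ t) r) (γ '' Icc 0 L) :=
        Set.disjoint_left.2 fun x hx hx' => hball hx hx'
      filter_upwards [hδ.continuous.continuousAt.preimage_mem_nhds (ball_mem_nhds (δ t) hr)] with s hs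
      exact wn_const hγ hL hcl (convex_ball (δ t) r).isPreconnected hd hs (mem_ball_self hr))
    (fun t ht => by
      obtain ⟨ht1, s0, hs0, hst⟩ := (hKm t).1 ht
      have htd := hdom t (Ioo_subset_Icc_self ht1)
      have hsd : s0 ∈ G.dom i := Or.inl hi
      have hP : G.c j t ∈ T := h.mem htd
      have hQ : G.c i s0 ∈ T := h.mem hsd
      have hst' : (G.c i s0).1 = (G.c j t).2 := hst
      have hP' : ((G.c j t).1, (G.c i s0).1) ∈ T := by rw [hst']; exact hP
      refine wn_cross hγ hL hper (t0 := s0) (fun s hs he => ?_) (htr i j s0 t hsd htd hst)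
        (((hδ.differentiable one_ne_zero) t).hasDerivAt) hst.symm
      have hR : G.c i s ∈ T := h.mem (Or.inl hi)
      have he' : (G.c i s).1 = (G.c i s0).1 := he
      have h4 : ((G.c i s0).1, (G.c i s).2) ∈ T := by rw [← he']; exact hR
      have h5 := unique_lower hS hP' hQ h4
      exact h.ne_of_mem_Ioo hi hs (Prod.ext he' h5.symm))
  rw [hends, sub_self, zero_add] at key
  exact (Int.even_coe_nat _).1 key

open Classical in
/-- The index of the curve through a pair. -/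
private noncomputable def idx (G : Curves ι) (i0 : ι) (P : Plane × Plane) : ι :=
  if h : ∃ i, ∃ t ∈ Icc 0 (G.len i), G.c i t = P then h.choose else i0

omit [Finite ι] in
private theorem idx_eq (h : IsCurves G T) {i0 : ι} {P : Plane × Plane} (hP : P ∈ T) (j : ι) :
    idx G i0 P = j ↔ ∃ t ∈ G.dom j, G.c j t = P := by
  have h1 : ∃ i, ∃ t ∈ Icc 0 (G.len i), G.c i t = P := h.exists_param hP
  unfold idx
  rw [dif_pos h1]
  obtain ⟨t, ht, he⟩ := h1.choose_spec
  constructor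
  · rintro rfl
    exact ⟨t, Or.inr ht, he⟩
  · rintro ⟨s, hs, hs'⟩
    exact h.index_eq (Or.inr ht) hs (he.trans hs'.symm)

/-- The number of middle-bottom pairs on a closed curve is even. -/
theorem even_closed (h : IsCurves G T) (hS : Strict T) (hV : (vertices T).Finite)
    (htr : ∀ i j s t, s ∈ G.dom i → t ∈ G.dom j → G.fst i s = G.snd j t →
      det2 (deriv (G.fst i) s) (deriv (G.snd j) t) ≠ 0) {i : ι} (hi : G.closed i) :
    Even {p | (∃ s ∈ G.dom i, G.c i s = p) ∧ ∃ x, (x, p.1) ∈ T}.ncard := by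
  classical
  set M := {P | P ∈ T ∧ P.2 ∈ G.up i} with hM
  have hMfin : M.Finite := by
    refine hV.subset ?_
    rintro P ⟨hP, s, hs, hst⟩
    refine ⟨hP, (G.c i s).2, Or.inl ?_⟩
    have h1 : G.c i s ∈ T := h.mem (Or.inr hs)
    rw [← hst]
    exact h1
  have hMeven : Even M.ncard := by
    refine even_of_fibers hMfin (idx G i) fun j => ?_
    have h1 : {P | P ∈ M ∧ idx G i P = j} = {P | (∃ t ∈ G.dom j, G.c j t = P) ∧ P.2 ∈ G.up i} := by
      ext P
      constructor
      · rintro ⟨⟨hP, hP2⟩, hj⟩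
        exact ⟨(idx_eq h hP j).1 hj, hP2⟩
      · rintro ⟨⟨t, ht, rfl⟩, hP2⟩
        exact ⟨⟨h.mem ht, hP2⟩, (idx_eq h (h.mem ht) j).2 ⟨t, ht, rfl⟩⟩
    rw [h1]
    exact even_cross h hS hV htr hi j
  have hc : ∀ P ∈ M, ∃ s ∈ G.dom i, (G.c i s).1 = P.2 := by
    rintro P ⟨_, s, hs, hst⟩
    exact ⟨s, Or.inr hs, hst⟩
  choose! s hs1 hs2 using hc
  have hcard : M.ncard = {p | (∃ s ∈ G.dom i, G.c i s = p) ∧ ∃ x, (x, p.1) ∈ T}.ncard := by
    refine Set.ncard_congr (fun P _ => G.c i (s P)) ?_ ?_ ?_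
    · intro P hP
      refine ⟨⟨s P, hs1 P hP, rfl⟩, P.1, ?_⟩
      rw [hs2 P hP]
      exact hP.1
    · intro P Q hP hQ he
      have h1 : P.2 = Q.2 := by rw [← hs2 P hP, ← hs2 Q hQ, he]
      have h2 : (P.2, (G.c i (s P)).2) ∈ T := by
        rw [← hs2 P hP]
        exact h.mem (hs1 P hP)
      have h3 : (Q.1, P.2) ∈ T := by
        rw [h1]
        exact hQ.1
      exact Prod.ext (unique_upper hS (show (P.1, P.2) ∈ T from hP.1) h3 h2) h1
    · rintro p ⟨⟨r, hr, rfl⟩, x, hx⟩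
      obtain ⟨r', hr', hre⟩ := h.exists_Icc hr
      have hP : (x, (G.c i r).1) ∈ M := ⟨hx, r', hr', congrArg Prod.fst hre⟩
      refine ⟨(x, (G.c i r).1), hP, ?_⟩
      have h1 : (G.c i (s (x, (G.c i r).1))).1 = (G.c i r).1 := hs2 _ hP
      have h2 : ((G.c i (s (x, (G.c i r).1))).1, (G.c i (s (x, (G.c i r).1))).2) ∈ T :=
        h.mem (hs1 _ hP)
      rw [h1] at h2
      have h3 : ((G.c i r).1, (G.c i r).2) ∈ T := h.mem hr
      exact Prod.ext h1 (unique_lower hS hx h2 h3)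
  rw [← hcard]
  exact hMeven

/-- The number of middle-bottom pairs of an open and closed part without boundary is even. -/
theorem even_clopen (h : IsCurves G T) (hS : Strict T) (hV : (vertices T).Finite)
    (htr : ∀ i j s t, s ∈ G.dom i → t ∈ G.dom j → G.fst i s = G.snd j t →
      det2 (deriv (G.fst i) s) (deriv (G.snd j) t) ≠ 0) {K : Set (Plane × Plane)} (hKT : K ⊆ T)
    (hK : IsClosed K) (hK' : IsClosed (T \ K)) (hKb : ∀ p ∈ K, p.2 ∈ ball (0 : Plane) 1) :
    Even {p | p ∈ K ∧ ∃ x, (x, p.1) ∈ T}.ncard := by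
  classical
  rcases K.eq_empty_or_nonempty with rfl | ⟨p0, hp0⟩
  · simp
  obtain ⟨i0, -, -, -⟩ := h.exists_param (hKT hp0)
  have hfin : {p | p ∈ K ∧ ∃ x, (x, p.1) ∈ T}.Finite := by
    refine hV.subset ?_
    rintro p ⟨hp, x, hx⟩
    exact ⟨hKT hp, x, Or.inr (Or.inl hx)⟩
  refine even_of_fibers hfin (idx G i0) fun i => ?_
  have hcon : ∀ s ∈ Icc 0 (G.len i), ∀ t ∈ Icc 0 (G.len i), G.c i s ∈ K → G.c i t ∈ K := by
    intro s hs t ht hsK
    by_contra hno
    obtain ⟨r, _, hr1, hr2⟩ := isPreconnected_closed_iff.1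
      (isPreconnected_Icc (a := (0 : ℝ)) (b := G.len i)) (G.c i ⁻¹' K) (G.c i ⁻¹' (T \ K))
      (hK.preimage (h.smooth i).continuous) (hK'.preimage (h.smooth i).continuous)
      (fun r hr => by
        by_cases h4 : G.c i r ∈ K
        · exact Or.inl h4
        · exact Or.inr ⟨h.mem (Or.inr hr), h4⟩)
      ⟨s, hs, hsK⟩ ⟨t, ht, h.mem (Or.inr ht), hno⟩
    exact hr2.2 hr1
  by_cases hi : ∃ s ∈ Icc 0 (G.len i), G.c i s ∈ K
  · obtain ⟨s, hs, hsK⟩ := hi
    have hall : ∀ t ∈ Icc 0 (G.len i), G.c i t ∈ K := fun t ht => hcon s hs t ht hsK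
    have hcl : G.closed i := by
      by_contra hncl
      have h1 := mem_ball_zero_iff.1 (hKb _ (hall 0 ⟨le_rfl, (h.pos i).le⟩))
      have h2 := mem_sphere_zero_iff_norm.1 (h.ends i hncl).1
      exact absurd h2 h1.ne
    have h1 : {p | p ∈ {p | p ∈ K ∧ ∃ x, (x, p.1) ∈ T} ∧ idx G i0 p = i} =
        {p | (∃ s ∈ G.dom i, G.c i s = p) ∧ ∃ x, (x, p.1) ∈ T} := by
      ext p
      constructor
      · rintro ⟨⟨hp, hx⟩, hj⟩
        exact ⟨(idx_eq h (hKT hp) i).1 hj, hx⟩
      · rintro ⟨⟨t, ht, rfl⟩, hx⟩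
        obtain ⟨t', ht', he⟩ := h.exists_Icc ht
        refine ⟨⟨?_, hx⟩, (idx_eq h (h.mem ht) i).2 ⟨t, ht, rfl⟩⟩
        rw [← he]
        exact hall t' ht'
    rw [h1]
    exact even_closed h hS hV htr hcl
  · have h1 : {p | p ∈ {p | p ∈ K ∧ ∃ x, (x, p.1) ∈ T} ∧ idx G i0 p = i} = ∅ := by
      rw [eq_empty_iff_forall_notMem]
      rintro p ⟨⟨hp, _⟩, hj⟩
      obtain ⟨t, ht, he⟩ := (idx_eq h (hKT hp) i).1 hj
      obtain ⟨t', ht', he'⟩ := h.exists_Icc ht
      exact hi ⟨t', ht', by rw [he', he]; exact hp⟩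
    rw [h1]
    simp

end

end Pool.Agent.Lib_MP_752436_hb
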